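import Pool.Agent.K1H4.PC.Thm

/-! # Fixed points of the Pearson correlation map: the converse, and uniqueness of `μ` -/

set_option autoImplicit false

namespace Pool.Agent.K1H4.PC

open Matrix

/-- the matrix with the columns `hv c h a` -/
def Hm {n k : ℕ} (c : Fin n → Fin k) (h : Fin n → ℝ) : Matrix (Fin n) (Fin k) ℝ :=
  Matrix.of fun i a => hv c h a i

section

variable {n k : ℕ} {c : Fin n → Fin k} {ℓ : Fin k → ℝ} {P : Matrix (Fin n) (Fin n) ℝ}
  {h : Fin n → ℝ} {μ : Matrix (Fin k) (Fin k) ℝ}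

lemma hmh_apply (i j : Fin n) : (Hm c h * μ * (Hm c h)ᵀ) i j = μ (c i) (c j) * h i * h j := by
  rw [Matrix.mul_apply, Finset.sum_eq_single (c j)]
  · rw [Matrix.mul_apply, Finset.sum_eq_single (c i)]
    · simp only [Hm, Matrix.of_apply, Matrix.transpose_apply, hv, if_true]
      ring
    · intro b _ hb
      simp only [Hm, Matrix.of_apply, hv]
      rw [if_neg (Ne.symm hb), zero_mul]
    · intro hb
      exact absurd (Finset.mem_univ _) hb
  · intro b _ hb
    simp only [Hm, Matrix.of_apply, Matrix.transpose_apply, hv]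
    rw [if_neg (Ne.symm hb), mul_zero]
  · intro hb
    exact absurd (Finset.mem_univ _) hb

lemma dhm : diagonal (fun i => ℓ (c i)) * Hm c h = Hm c h * diagonal ℓ := by
  ext i a
  rw [diagonal_mul, mul_diagonal]
  simp only [Hm, Matrix.of_apply, hv]
  split_ifs with hi
  · rw [hi]; ring
  · ring

lemma hkh (t : ℝ) (hsq : ∀ a, cs c (fun i => h i ^ 2) a = cs c h a) :
    (Hm c h)ᵀ * (1 - t • vecMulVec (fun _ => 1) (fun _ => 1) : Matrix (Fin n) (Fin n) ℝ) * Hm c h =
      diagonal (cs c h) - t • vecMulVec (cs c h) (cs c h) := by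
  rw [Matrix.mul_sub, Matrix.sub_mul, Matrix.mul_one, Matrix.mul_smul, Matrix.smul_mul,
    mul_vecMulVec, vecMulVec_mul]
  congr 1
  · ext a b
    have h1 := hv_dot (c := c) (h := h) a b
    rw [hsq] at h1
    rw [Matrix.mul_apply, diagonal_apply]
    exact h1
  · congr 2
    · funext a
      exact hv_one a
    · funext a
      exact one_hv a

lemma phm (hd : Data c ℓ P h) : P * Hm c h = 0 := by
  ext i a
  rw [Matrix.mul_apply]
  simp only [Hm, Matrix.of_apply, hv, Matrix.zero_apply]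
  by_cases hi : c i = a
  · rw [← hd.orth i]
    refine Finset.sum_congr rfl fun j _ => ?_
    split_ifs with hj
    · rfl
    · rw [hd.block i j (fun e => hj (e.symm.trans hi)), zero_mul, zero_mul]
  · refine Finset.sum_eq_zero fun j _ => ?_
    split_ifs with hj
    · rw [hd.block i j (fun e => hi (e.trans hj)), zero_mul]
    · rw [mul_zero]

lemma dpc (hd : Data c ℓ P h) :
    diagonal (fun i => ℓ (c i)) * P = P * diagonal (fun i => ℓ (c i)) := by
  ext i j
  rw [diagonal_mul, mul_diagonal]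
  by_cases hij : c i = c j
  · rw [hij]; ring
  · rw [hd.block i j hij]; ring

lemma pj (hd : Data c ℓ P h) : P *ᵥ (fun _ => (1:ℝ)) = 0 := by
  funext i
  have := hd.one i
  unfold mulVec dotProduct
  simpa using this

/-- the equation for the matrices in the theorem -/
lemma conv_eq {n k : ℕ} {c : Fin n → Fin k} {ℓ : Fin k → ℝ} {P : Matrix (Fin n) (Fin n) ℝ}
    {h : Fin n → ℝ} {μ : Matrix (Fin k) (Fin k) ℝ} (hd : Data c ℓ P h)
    (ha : Adm n ℓ (cs c h) μ) {A D : Matrix (Fin n) (Fin n) ℝ}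
    (hD : D = diagonal fun i => ℓ (c i)) (hA : A = D * D * P + Hm c h * μ * (Hm c h)ᵀ) :
    A * (1 - (1 / (n : ℝ)) • vecMulVec (fun _ => 1) (fun _ => 1)) * A = D * A * D := by
  obtain ⟨K, hK⟩ : ∃ K : Matrix (Fin n) (Fin n) ℝ,
    K = 1 - (1 / (n : ℝ)) • vecMulVec (fun _ => 1) (fun _ => 1) := ⟨_, rfl⟩
  obtain ⟨H, hH⟩ : ∃ H, H = Hm c h := ⟨_, rfl⟩
  rw [← hH] at hA
  rw [← hK]
  have hDs : Dᵀ = D := by rw [hD, diagonal_transpose]
  have k1 : P * K = P := by
    rw [hK, Matrix.mul_sub, Matrix.mul_one, Matrix.mul_smul, mul_vecMulVec, pj hd]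
    ext i j
    simp
  have hKs : Kᵀ = K := by
    rw [hK, transpose_sub, transpose_one, transpose_smul, transpose_vecMulVec]
  have k2 : K * P = P := by
    have h1 := congrArg transpose k1
    rwa [transpose_mul, hKs, hd.symm] at h1
  have p1 : P * H = 0 := by rw [hH]; exact phm hd
  have p2 : Hᵀ * P = 0 := by
    have h1 := congrArg transpose p1
    rwa [transpose_mul, hd.symm, transpose_zero] at h1
  have p3 : D * P = P * D := by rw [hD]; exact dpc hd
  have p4 : D * H = H * diagonal ℓ := by rw [hD, hH]; exact dhm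
  have p5 : Hᵀ * D = diagonal ℓ * Hᵀ := by
    have h1 := congrArg transpose p4
    rwa [transpose_mul, transpose_mul, diagonal_transpose, hDs] at h1
  have p6 : Hᵀ * K * H = diagonal (cs c h) - (1 / (n : ℝ)) • vecMulVec (cs c h) (cs c h) := by
    rw [hH, hK]
    exact hkh _ hd.sq
  obtain ⟨X, hX⟩ : ∃ X, X = H * μ * Hᵀ := ⟨_, rfl⟩
  have x1 : P * X = 0 := by
    rw [hX, ← Matrix.mul_assoc, ← Matrix.mul_assoc, p1, Matrix.zero_mul, Matrix.zero_mul]
  have x2 : X * P = 0 := by
    rw [hX, Matrix.mul_assoc, p2, Matrix.mul_zero]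
  have x3 : X * K * X = D * X * D := by
    calc X * K * X = H * (μ * (Hᵀ * K * H) * μ) * Hᵀ := by
          rw [hX]; simp only [Matrix.mul_assoc]
      _ = H * (diagonal ℓ * μ * diagonal ℓ) * Hᵀ := by rw [p6, ha.eq]
      _ = (H * diagonal ℓ) * μ * (diagonal ℓ * Hᵀ) := by simp only [Matrix.mul_assoc]
      _ = _ := by rw [← p4, ← p5, hX]; simp only [Matrix.mul_assoc]
  have y1 : D * D * P = P * (D * D) := by
    rw [Matrix.mul_assoc, p3, ← Matrix.mul_assoc, p3, Matrix.mul_assoc]
  have y2 : D * D * P * K = D * D * P := by rw [Matrix.mul_assoc, k1]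
  have y3 : D * D * P * X = 0 := by rw [Matrix.mul_assoc, x1, Matrix.mul_zero]
  have y4 : X * K * (D * D * P) = 0 := by
    rw [y1, Matrix.mul_assoc, ← Matrix.mul_assoc K, k2, ← Matrix.mul_assoc, x2, Matrix.zero_mul]
  have y5 : D * D * P * (D * D * P) = D * (D * D * P) * D := by
    have z1 : P * (D * D * P) = D * D * P := by
      rw [y1, ← Matrix.mul_assoc, hd.idem]
    calc D * D * P * (D * D * P) = D * D * (P * (D * D * P)) := by simp only [Matrix.mul_assoc]
      _ = D * D * D * (D * P) := by rw [z1]; simp only [Matrix.mul_assoc]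
      _ = _ := by rw [p3]; simp only [Matrix.mul_assoc]
  have hfin : A = D * D * P + X := by rw [hA, hX]
  calc A * K * A = D * D * P * K * (D * D * P) + D * D * P * K * X +
        (X * K * (D * D * P) + X * K * X) := by
        rw [hfin, Matrix.add_mul, Matrix.add_mul, Matrix.mul_add, Matrix.mul_add]
    _ = D * (D * D * P) * D + D * X * D := by
        rw [y2, y3, y4, x3, y5, add_zero, zero_add]
    _ = D * A * D := by rw [hfin, Matrix.mul_add, Matrix.add_mul]

/-- the converse -/
theorem conv {n k : ℕ} {c : Fin n → Fin k} {ℓ : Fin k → ℝ} {P : Matrix (Fin n) (Fin n) ℝ}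
    {h : Fin n → ℝ} {μ : Matrix (Fin k) (Fin k) ℝ} (hn : 0 < n) (hd : Data c ℓ P h)
    (ha : Adm n ℓ (cs c h) μ) {A : Matrix (Fin n) (Fin n) ℝ}
    (hA : ∀ i j, A i j = ℓ (c i) ^ 2 * P i j + μ (c i) (c j) * h i * h j)
    (h1 : ∀ i, A i i = 1) : IsFix A := by
  have hn0 : (n : ℝ) ≠ 0 := by exact_mod_cast hn.ne'
  obtain ⟨D, hD⟩ : ∃ D : Matrix (Fin n) (Fin n) ℝ, D = diagonal fun i => ℓ (c i) := ⟨_, rfl⟩
  have hA' : A = D * D * P + Hm c h * μ * (Hm c h)ᵀ := by
    ext i j
    rw [hA, Matrix.add_apply, hmh_apply, hD, diagonal_mul_diagonal, diagonal_mul]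
    ring
  have hDs : Dᵀ = D := by rw [hD, diagonal_transpose]
  have p3 : D * P = P * D := by rw [hD]; exact dpc hd
  have hPP : D * D * P = (D * P)ᵀ * (D * P) := by
    rw [transpose_mul, hd.symm, hDs]
    calc D * D * P = D * D * (P * P) := by rw [hd.idem]
      _ = D * (D * P) * P := by simp only [Matrix.mul_assoc]
      _ = (D * P) * (D * P) := by
        have h2 : D * (D * P) * P = D * (P * D) * P := by rw [p3]
        rw [h2]
        simp only [Matrix.mul_assoc]
      _ = P * D * (D * P) := by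
        have h2 : D * P * (D * P) = P * D * (D * P) := congrArg (fun X => X * (D * P)) p3
        rw [h2]
  have hpsd : A.PosSemidef := by
    rw [hA']
    refine Matrix.PosSemidef.add ?_ ?_
    · rw [hPP, ← conjTranspose_eq_transpose_of_trivial]
      exact posSemidef_conjTranspose_mul_self _
    · have := ha.psd.mul_mul_conjTranspose_same (Hm c h)
      rwa [conjTranspose_eq_transpose_of_trivial] at this
  have hE := conv_eq hd ha hD hA'
  have hsym := psd_sym hpsd
  have hcov : ∀ i j, ∑ k, (A i k - mean (A i)) * (A j k - mean (A j)) =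
      ℓ (c i) * ℓ (c j) * A i j := by
    intro i j
    rw [cov_eq hn0 hsym, hE, hD, mul_diagonal, diagonal_mul]
    ring
  have hvar : ∀ i, ∑ k, (A i k - mean (A i)) ^ 2 = ℓ (c i) ^ 2 := by
    intro i
    rw [cov_self, hcov, h1]
    ring
  refine ⟨⟨hpsd, h1⟩, ?_, ?_⟩
  · intro i
    by_contra hcon
    push Not at hcon
    have h2 : ∀ k, A i k - mean (A i) = 0 := by
      intro k
      have h3 : mean (A i) = A i k := by
        unfold mean
        rw [Finset.sum_congr rfl fun j _ => hcon j k]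
        rw [Finset.sum_const, Finset.card_univ, Fintype.card_fin, nsmul_eq_mul]
        field_simp
      rw [h3, sub_self]
    have h4 := hvar i
    have h5 : ∑ k, (A i k - mean (A i)) ^ 2 = 0 := by
      refine Finset.sum_eq_zero fun k _ => ?_
      rw [h2 k]
      ring
    rw [h5] at h4
    have h6 := hd.pos (c i)
    have : 0 < ℓ (c i) ^ 2 := by positivity
    linarith
  · ext i j
    show corr (A i) (A j) = A i j
    unfold corr
    rw [hcov, hvar, hvar, ← mul_pow, Real.sqrt_sq (mul_pos (hd.pos _) (hd.pos _)).le]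
    have h6 := hd.pos (c i)
    have h7 := hd.pos (c j)
    field_simp

end

/-- uniqueness of `μ` -/
theorem uniq {n k : ℕ} {ℓ q : Fin k → ℝ} (hl : ∀ a, 0 < ℓ a) {μ μ' : Matrix (Fin k) (Fin k) ℝ}
    (h : Adm n ℓ q μ) (h' : Adm n ℓ q μ') : μ = μ' := by
  classical
  obtain ⟨P, hP⟩ : ∃ P : Matrix (Fin k) (Fin k) ℝ, P = diagonal fun a => if q a = 0 then 0 else 1 :=
    ⟨_, rfl⟩
  have hmul : ∀ m : Matrix (Fin k) (Fin k) ℝ, Adm n ℓ q m → m * P = m := by
    intro m hm
    ext a b
    rw [hP, mul_diagonal]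
    split_ifs with hb
    · have h1 : m a b = m b a := by
        conv_lhs => rw [← psd_sym hm.psd]
        rfl
      rw [h1, hm.supp b a hb, zero_mul]
    · rw [mul_one]
  have hpos : ∀ m : Matrix (Fin k) (Fin k) ℝ, Adm n ℓ q m → ∀ x, P *ᵥ x = x → x ≠ 0 →
      0 < x ⬝ᵥ m *ᵥ x := by
    intro m hm x hx hx0
    refine hm.pos x ?_
    obtain ⟨a, ha⟩ := Function.ne_iff.1 hx0
    refine ⟨a, fun hq => ha ?_, ha⟩
    rw [← hx, hP, mulVec_diagonal, if_pos hq, zero_mul]
    rfl
  refine eq_of_eqs (P := P) (D := diagonal ℓ)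
    (K := diagonal q - (1 / (n : ℝ)) • vecMulVec q q) h.psd h'.psd ?_ ?_ (hmul μ h) (hmul μ' h')
    (hpos μ h) (hpos μ' h') ?_ ?_ ?_ ?_
  · rw [hP, diagonal_transpose]
  · rw [hP, diagonal_mul_diagonal]
    congr 1
    funext a
    split_ifs <;> simp
  · rw [hP, diagonal_mul_diagonal, diagonal_mul_diagonal]
    congr 1
    funext a
    ring
  · intro x hx
    funext a
    have h1 := congrFun hx a
    rw [mulVec_diagonal] at h1
    rcases mul_eq_zero.1 h1 with h2 | h2
    · exact absurd h2 (hl a).ne'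
    · exact h2
  · rw [diagonal_transpose]
    exact h.eq
  · rw [diagonal_transpose]
    exact h'.eq

end Pool.Agent.K1H4.PC
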