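import Mathlib

/-! # Fixed points of the Pearson correlation map: uniqueness for `A K A = D A D` -/

set_option autoImplicit false

namespace Pool.Agent.K1H4.PC

open Matrix

variable {n : Type*} [Fintype n]

lemma qf_conj (D A : Matrix n n ℝ) (x : n → ℝ) :
    x ⬝ᵥ (Dᵀ * A * D) *ᵥ x = (D *ᵥ x) ⬝ᵥ A *ᵥ (D *ᵥ x) := by
  rw [← mulVec_mulVec, ← mulVec_mulVec, dotProduct_mulVec, vecMul_transpose]

lemma psd_qf {A : Matrix n n ℝ} (hA : A.PosSemidef) (x : n → ℝ) : 0 ≤ x ⬝ᵥ A *ᵥ x := by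
  simpa using hA.dotProduct_mulVec_nonneg x

omit [Fintype n] in
lemma psd_sym {A : Matrix n n ℝ} (hA : A.PosSemidef) : Aᵀ = A := by
  have := hA.isHermitian
  rwa [Matrix.IsHermitian, conjTranspose_eq_transpose_of_trivial] at this

lemma psd_of {A : Matrix n n ℝ} (hA : Aᵀ = A) (h : ∀ x : n → ℝ, 0 ≤ x ⬝ᵥ A *ᵥ x) :
    A.PosSemidef := by
  refine .of_dotProduct_mulVec_nonneg ?_ fun x => by simpa using h x
  rw [Matrix.IsHermitian, conjTranspose_eq_transpose_of_trivial]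
  exact hA

lemma psd_zero {A : Matrix n n ℝ} (hA : A.PosSemidef) {x : n → ℝ} (h : x ⬝ᵥ A *ᵥ x = 0) :
    A *ᵥ x = 0 := (hA.dotProduct_mulVec_zero_iff x).1 (by simpa using h)

lemma ext_qf {A B : Matrix n n ℝ} (hA : Aᵀ = A) (hB : Bᵀ = B)
    (h : ∀ x : n → ℝ, x ⬝ᵥ A *ᵥ x = x ⬝ᵥ B *ᵥ x) : A = B := by
  open scoped MatrixOrder in
  refine le_antisymm ?_ ?_
  · rw [Matrix.le_iff]
    refine psd_of (by rw [transpose_sub, hA, hB]) fun x => ?_
    rw [sub_mulVec, dotProduct_sub, h x, sub_self]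
  · rw [Matrix.le_iff]
    refine psd_of (by rw [transpose_sub, hA, hB]) fun x => ?_
    rw [sub_mulVec, dotProduct_sub, h x, sub_self]

/-- the unit sphere of the range of `P` -/
def Sp (P : Matrix n n ℝ) : Set (n → ℝ) := {x | P *ᵥ x = x ∧ x ⬝ᵥ x = 1}

lemma compact_Sp (P : Matrix n n ℝ) : IsCompact (Sp P) := by
  refine Metric.isCompact_of_isClosed_isBounded ?_ ?_
  · have h1 : IsClosed {x : n → ℝ | P *ᵥ x = x} :=
      isClosed_eq (Continuous.matrix_mulVec continuous_const continuous_id) continuous_id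
    have h2 : IsClosed {x : n → ℝ | x ⬝ᵥ x = 1} :=
      isClosed_eq (Continuous.dotProduct continuous_id continuous_id) continuous_const
    exact h1.inter h2
  · rw [isBounded_iff_forall_norm_le]
    refine ⟨1, fun x hx => ?_⟩
    rw [pi_norm_le_iff_of_nonneg zero_le_one]
    intro i
    have h1 : x i * x i ≤ x ⬝ᵥ x :=
      Finset.single_le_sum (f := fun i => x i * x i) (fun i _ => mul_self_nonneg _)
        (Finset.mem_univ i)
    rw [hx.2] at h1
    rw [Real.norm_eq_abs]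
    exact abs_le_one_iff_mul_self_le_one.2 h1

lemma dot_self_pos {x : n → ℝ} (h : x ≠ 0) : 0 < x ⬝ᵥ x := by
  have h1 : 0 ≤ x ⬝ᵥ x := Finset.sum_nonneg fun i _ => mul_self_nonneg _
  refine lt_of_le_of_ne h1 fun h2 => h (dotProduct_self_eq_zero.1 h2.symm)

/-- comparison of two solutions -/
lemma le_of_eqs {A B P D K : Matrix n n ℝ} (hA : A.PosSemidef) (hB : B.PosSemidef)
    (hP : Pᵀ = P) (hPP : P * P = P) (hAP : A * P = A) (hBP : B * P = B)
    (hpos : ∀ x, P *ᵥ x = x → x ≠ 0 → 0 < x ⬝ᵥ B *ᵥ x) (hDP : D * P = P * D)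
    (hD0 : ∀ x, D *ᵥ x = 0 → x = 0) (e1 : A * K * A = Dᵀ * A * D) (e2 : B * K * B = Dᵀ * B * D) :
    ∀ x, x ⬝ᵥ A *ᵥ x ≤ x ⬝ᵥ B *ᵥ x := by
  have hAt := psd_sym hA
  have hBt := psd_sym hB
  have redA : ∀ x, x ⬝ᵥ A *ᵥ x = (P *ᵥ x) ⬝ᵥ A *ᵥ (P *ᵥ x) := by
    intro x
    rw [← qf_conj, hP, Matrix.mul_assoc, hAP]
    have : P * A = A := by rw [← hAt, ← hP, ← transpose_mul, hAP]
    rw [this]
  have redB : ∀ x, x ⬝ᵥ B *ᵥ x = (P *ᵥ x) ⬝ᵥ B *ᵥ (P *ᵥ x) := by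
    intro x
    rw [← qf_conj, hP, Matrix.mul_assoc, hBP]
    have : P * B = B := by rw [← hBt, ← hP, ← transpose_mul, hBP]
    rw [this]
  have scal : ∀ (C : Matrix n n ℝ) (r : ℝ) (x : n → ℝ),
      (r • x) ⬝ᵥ C *ᵥ (r • x) = r ^ 2 * (x ⬝ᵥ C *ᵥ x) := by
    intro C r x
    rw [mulVec_smul, smul_dotProduct, dotProduct_smul, smul_eq_mul, smul_eq_mul]
    ring
  by_cases hS : (Sp P).Nonempty
  · have hcont : ContinuousOn (fun x : n → ℝ => (x ⬝ᵥ A *ᵥ x) / (x ⬝ᵥ B *ᵥ x)) (Sp P) := by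
      refine ContinuousOn.div ?_ ?_ ?_
      · exact (Continuous.dotProduct continuous_id
          (Continuous.matrix_mulVec continuous_const continuous_id)).continuousOn
      · exact (Continuous.dotProduct continuous_id
          (Continuous.matrix_mulVec continuous_const continuous_id)).continuousOn
      · intro x hx
        refine (hpos x hx.1 ?_).ne'
        rintro rfl
        have := hx.2
        rw [dotProduct_zero] at this
        exact zero_ne_one this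
    obtain ⟨z, hz, hmax⟩ := (compact_Sp P).exists_isMaxOn hS hcont
    have hz0 : z ≠ 0 := by
      rintro rfl
      have := hz.2
      rw [dotProduct_zero] at this
      exact zero_ne_one this
    have hbz := hpos z hz.1 hz0
    obtain ⟨c, hc⟩ : ∃ c : ℝ, c = (z ⬝ᵥ A *ᵥ z) / (z ⬝ᵥ B *ᵥ z) := ⟨_, rfl⟩
    have hc0 : 0 ≤ c := by rw [hc]; exact div_nonneg (psd_qf hA z) hbz.le
    have h1 : ∀ x, x ⬝ᵥ A *ᵥ x ≤ c * (x ⬝ᵥ B *ᵥ x) := by
      intro x
      rw [redA, redB]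
      obtain ⟨y, hy⟩ : ∃ y, y = P *ᵥ x := ⟨_, rfl⟩
      rw [← hy]
      have hPy : P *ᵥ y = y := by rw [hy, mulVec_mulVec, hPP]
      by_cases hy0 : y = 0
      · rw [hy0]; simp
      · have hyy := dot_self_pos hy0
        have hr : 0 < (Real.sqrt (y ⬝ᵥ y))⁻¹ := by positivity
        have hr2 : ((Real.sqrt (y ⬝ᵥ y))⁻¹) ^ 2 = (y ⬝ᵥ y)⁻¹ := by
          rw [inv_pow, Real.sq_sqrt hyy.le]
        have hw : (Real.sqrt (y ⬝ᵥ y))⁻¹ • y ∈ Sp P := by
          refine ⟨by rw [mulVec_smul, hPy], ?_⟩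
          rw [smul_dotProduct, dotProduct_smul, smul_eq_mul, smul_eq_mul, ← mul_assoc, ← sq, hr2,
            inv_mul_cancel₀ hyy.ne']
        have h2 := hmax hw
        simp only [Set.mem_ofPred_eq, scal, hr2] at h2
        rw [mul_div_mul_left _ _ (inv_ne_zero hyy.ne'), ← hc,
          div_le_iff₀ (hpos y hPy hy0)] at h2
        exact h2
    have hM : (c • B - A).PosSemidef := by
      refine psd_of (by rw [transpose_sub, transpose_smul, hAt, hBt]) fun x => ?_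
      rw [sub_mulVec, dotProduct_sub, smul_mulVec, dotProduct_smul, smul_eq_mul]
      linarith [h1 x]
    have hMz : (c • B - A) *ᵥ z = 0 := by
      refine psd_zero hM ?_
      rw [sub_mulVec, dotProduct_sub, smul_mulVec, dotProduct_smul, smul_eq_mul, hc,
        div_mul_cancel₀ _ hbz.ne', sub_self]
    have hAz : A *ᵥ z = c • B *ᵥ z := by
      rw [sub_mulVec, smul_mulVec, sub_eq_zero] at hMz
      exact hMz.symm
    have hDz : P *ᵥ (D *ᵥ z) = D *ᵥ z := by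
      rw [mulVec_mulVec, ← hDP, ← mulVec_mulVec, hz.1]
    have hDz0 : D *ᵥ z ≠ 0 := fun h => hz0 (hD0 z h)
    have hb := hpos _ hDz hDz0
    have h3 := h1 (D *ᵥ z)
    have h4 : (D *ᵥ z) ⬝ᵥ A *ᵥ (D *ᵥ z) = c ^ 2 * ((D *ᵥ z) ⬝ᵥ B *ᵥ (D *ᵥ z)) := by
      rw [← qf_conj, ← qf_conj, ← e1, ← e2]
      have h5 := qf_conj A K z
      have h6 := qf_conj B K z
      rw [hAt] at h5
      rw [hBt] at h6
      rw [h5, h6, hAz, scal]
    have hc1 : c ≤ 1 := by
      by_contra hc1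
      rw [not_le] at hc1
      rw [h4] at h3
      have h7 := le_of_mul_le_mul_right h3 hb
      nlinarith
    intro x
    have h8 := h1 x
    have h9 := psd_qf hB x
    nlinarith
  · intro x
    have hPx : P *ᵥ x = 0 := by
      by_contra hne
      apply hS
      have hyy := dot_self_pos hne
      refine ⟨(Real.sqrt ((P *ᵥ x) ⬝ᵥ (P *ᵥ x)))⁻¹ • (P *ᵥ x), ?_, ?_⟩
      · rw [mulVec_smul, mulVec_mulVec, hPP]
      · rw [smul_dotProduct, dotProduct_smul, smul_eq_mul, smul_eq_mul, ← mul_assoc, ← sq, inv_pow,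
          Real.sq_sqrt hyy.le, inv_mul_cancel₀ hyy.ne']
    rw [redA, hPx, zero_dotProduct]
    exact psd_qf hB x

/-- uniqueness -/
lemma eq_of_eqs {A B P D K : Matrix n n ℝ} (hA : A.PosSemidef) (hB : B.PosSemidef)
    (hP : Pᵀ = P) (hPP : P * P = P) (hAP : A * P = A) (hBP : B * P = B)
    (hpA : ∀ x, P *ᵥ x = x → x ≠ 0 → 0 < x ⬝ᵥ A *ᵥ x)
    (hpB : ∀ x, P *ᵥ x = x → x ≠ 0 → 0 < x ⬝ᵥ B *ᵥ x) (hDP : D * P = P * D)
    (hD0 : ∀ x, D *ᵥ x = 0 → x = 0) (e1 : A * K * A = Dᵀ * A * D) (e2 : B * K * B = Dᵀ * B * D) :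
    A = B :=
  ext_qf (psd_sym hA) (psd_sym hB) fun x => le_antisymm
    (le_of_eqs hA hB hP hPP hAP hBP hpB hDP hD0 e1 e2 x)
    (le_of_eqs hB hA hP hPP hBP hAP hpA hDP hD0 e2 e1 x)

end Pool.Agent.K1H4.PC
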