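import Mathlib

/-! # Fixed points of the Pearson correlation map: definitions -/

set_option autoImplicit false

namespace Pool.Agent.K1H4.PC

open Matrix

/-- the mean of the entries of a vector -/
noncomputable def mean {m : ℕ} (x : Fin m → ℝ) : ℝ := (∑ k, x k) / m

/-- Pearson's correlation coefficient -/
noncomputable def corr {m : ℕ} (x y : Fin m → ℝ) : ℝ :=
  (∑ k, (x k - mean x) * (y k - mean y)) /
    Real.sqrt ((∑ k, (x k - mean x) ^ 2) * ∑ k, (y k - mean y) ^ 2)

/-- the correlation map -/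
noncomputable def corrMap {n : ℕ} (A : Matrix (Fin n) (Fin n) ℝ) : Matrix (Fin n) (Fin n) ℝ :=
  Matrix.of fun i j => corr (A i) (A j)

/-- `A` is a correlation matrix without constant rows, and `C(A) = A` -/
def IsFix {n : ℕ} (A : Matrix (Fin n) (Fin n) ℝ) : Prop :=
  (A.PosSemidef ∧ ∀ i, A i i = 1) ∧ (∀ i, ∃ j k, A i j ≠ A i k) ∧ corrMap A = A

/-- the sum of the entries of `h` over the class `a` -/
def cs {n k : ℕ} (c : Fin n → Fin k) (h : Fin n → ℝ) (a : Fin k) : ℝ :=
  ∑ i ∈ Finset.univ.filter (fun i => c i = a), h i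

/-- The data: `c` divides the indices into `k` classes, the numbers `ℓ a` are positive and
distinct, `P` is an orthogonal projection in block form for these classes, it annihilates the
vector `1` and the vector `h`, and `h` is on each class orthogonal to `1 - h`, and is not `1`. -/
structure Data {n k : ℕ} (c : Fin n → Fin k) (ℓ : Fin k → ℝ) (P : Matrix (Fin n) (Fin n) ℝ)
    (h : Fin n → ℝ) : Prop where
  sur : Function.Surjective c
  pos : ∀ a, 0 < ℓ a
  inj : Function.Injective ℓ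
  symm : Pᵀ = P
  idem : P * P = P
  block : ∀ i j, c i ≠ c j → P i j = 0
  one : ∀ i, ∑ j, P i j = 0
  orth : ∀ i, ∑ j, P i j * h j = 0
  sq : ∀ a, cs c (fun i => h i ^ 2) a = cs c h a
  lt : ∑ i, h i < n

/-- `μ (diag q - q qᵀ / n) μ = L μ L`, `μ` is positive definite on the support of `q`, and zero
elsewhere -/
structure Adm {k : ℕ} (n : ℕ) (ℓ q : Fin k → ℝ) (μ : Matrix (Fin k) (Fin k) ℝ) : Prop where
  psd : μ.PosSemidef
  supp : ∀ a b, q a = 0 → μ a b = 0
  pos : ∀ x : Fin k → ℝ, (∃ a, q a ≠ 0 ∧ x a ≠ 0) → 0 < x ⬝ᵥ μ *ᵥ x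
  eq : μ * (diagonal q - (1 / (n : ℝ)) • vecMulVec q q) * μ = diagonal ℓ * μ * diagonal ℓ

/-- `A i j = (ℓ (c i))² P i j + μ (c i) (c j) h i h j`, with data as above -/
structure Rep {n k : ℕ} (A : Matrix (Fin n) (Fin n) ℝ) (c : Fin n → Fin k) (ℓ : Fin k → ℝ)
    (P : Matrix (Fin n) (Fin n) ℝ) (h : Fin n → ℝ) (μ : Matrix (Fin k) (Fin k) ℝ) : Prop where
  data : Data c ℓ P h
  adm : Adm n ℓ (cs c h) μ
  eq : ∀ i j, A i j = ℓ (c i) ^ 2 * P i j + μ (c i) (c j) * h i * h j

end Pool.Agent.K1H4.PC
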