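import Pool.Agent.K1H4.PC.Conv

/-! # Fixed points of the Pearson correlation map: existence of `μ` -/

set_option autoImplicit false

namespace Pool.Agent.K1H4.PC

open Matrix

section

variable {k : ℕ}

/-- positive definite -/
def PD (A : Matrix (Fin k) (Fin k) ℝ) : Prop := A.PosSemidef ∧ ∀ x : Fin k → ℝ, x ≠ 0 → 0 < x ⬝ᵥ A *ᵥ x

lemma PD.scal (C : Matrix (Fin k) (Fin k) ℝ) (r : ℝ) (x : Fin k → ℝ) :
    (r • x) ⬝ᵥ C *ᵥ (r • x) = r ^ 2 * (x ⬝ᵥ C *ᵥ x) := by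
  rw [mulVec_smul, smul_dotProduct, dotProduct_smul, smul_eq_mul, smul_eq_mul]
  ring

lemma extremal (hk : 0 < k) {A B : Matrix (Fin k) (Fin k) ℝ} (hA : A.PosSemidef) (hB : PD B) :
    ∃ (z : Fin k → ℝ) (c : ℝ), z ≠ 0 ∧ 0 ≤ c ∧ A *ᵥ z = c • B *ᵥ z ∧
      ∀ x, x ⬝ᵥ A *ᵥ x ≤ c * (x ⬝ᵥ B *ᵥ x) := by
  have hAt := psd_sym hA
  have hBt := psd_sym hB.1
  have hpos := hB.2
  have hS : (Sp (1 : Matrix (Fin k) (Fin k) ℝ)).Nonempty := by
    refine ⟨Pi.single ⟨0, hk⟩ 1, by rw [one_mulVec], ?_⟩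
    simp
  have hcont : ContinuousOn (fun x : Fin k → ℝ => (x ⬝ᵥ A *ᵥ x) / (x ⬝ᵥ B *ᵥ x))
      (Sp (1 : Matrix (Fin k) (Fin k) ℝ)) := by
    refine ContinuousOn.div ?_ ?_ ?_
    · exact (Continuous.dotProduct continuous_id
        (Continuous.matrix_mulVec continuous_const continuous_id)).continuousOn
    · exact (Continuous.dotProduct continuous_id
        (Continuous.matrix_mulVec continuous_const continuous_id)).continuousOn
    · intro x hx
      refine (hpos x ?_).ne'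
      rintro rfl
      have := hx.2
      rw [dotProduct_zero] at this
      exact zero_ne_one this
  obtain ⟨z, hz, hmax⟩ := (compact_Sp (1 : Matrix (Fin k) (Fin k) ℝ)).exists_isMaxOn hS hcont
  have hz0 : z ≠ 0 := by
    rintro rfl
    have := hz.2
    rw [dotProduct_zero] at this
    exact zero_ne_one this
  have hbz := hpos z hz0
  obtain ⟨c, hc⟩ : ∃ c : ℝ, c = (z ⬝ᵥ A *ᵥ z) / (z ⬝ᵥ B *ᵥ z) := ⟨_, rfl⟩
  have hc0 : 0 ≤ c := by rw [hc]; exact div_nonneg (psd_qf hA z) hbz.le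
  have h1 : ∀ x, x ⬝ᵥ A *ᵥ x ≤ c * (x ⬝ᵥ B *ᵥ x) := by
    intro y
    by_cases hy0 : y = 0
    · rw [hy0]; simp
    · have hyy := dot_self_pos hy0
      have hr2 : ((Real.sqrt (y ⬝ᵥ y))⁻¹) ^ 2 = (y ⬝ᵥ y)⁻¹ := by
        rw [inv_pow, Real.sq_sqrt hyy.le]
      have hw : (Real.sqrt (y ⬝ᵥ y))⁻¹ • y ∈ Sp (1 : Matrix (Fin k) (Fin k) ℝ) := by
        refine ⟨by rw [one_mulVec], ?_⟩
        rw [smul_dotProduct, dotProduct_smul, smul_eq_mul, smul_eq_mul, ← mul_assoc, ← sq, hr2,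
          inv_mul_cancel₀ hyy.ne']
      have h2 := hmax hw
      simp only [Set.mem_ofPred_eq, PD.scal, hr2] at h2
      rw [mul_div_mul_left _ _ (inv_ne_zero hyy.ne'), ← hc, div_le_iff₀ (hpos y hy0)] at h2
      exact h2
  have hM : (c • B - A).PosSemidef := by
    refine psd_of (by rw [transpose_sub, transpose_smul, hAt, hBt]) fun x => ?_
    rw [sub_mulVec, dotProduct_sub, smul_mulVec, dotProduct_smul, smul_eq_mul]
    linarith [h1 x]
  have hMz : (c • B - A) *ᵥ z = 0 := by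
    refine psd_zero hM ?_
    rw [sub_mulVec, dotProduct_sub, smul_mulVec, dotProduct_smul, smul_eq_mul, hc,
      div_mul_cancel₀ _ hbz.ne', sub_self]
  refine ⟨z, c, hz0, hc0, ?_, h1⟩
  rw [sub_mulVec, smul_mulVec, sub_eq_zero] at hMz
  exact hMz.symm

/-- monotonicity -/
lemma mono (hk : 0 < k) {X Y K : Matrix (Fin k) (Fin k) ℝ} (hX : X.PosSemidef) (hY : PD Y)
    (hK : PD K) (h : ∀ x, x ⬝ᵥ (X * K * X) *ᵥ x ≤ x ⬝ᵥ (Y * K * Y) *ᵥ x) :
    ∀ x, x ⬝ᵥ X *ᵥ x ≤ x ⬝ᵥ Y *ᵥ x := by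
  obtain ⟨z, c, hz, hc, e, hle⟩ := extremal hk hX hY
  have h1 := h z
  have h5 := qf_conj X K z
  have h6 := qf_conj Y K z
  rw [psd_sym hX] at h5
  rw [psd_sym hY.1] at h6
  rw [h5, h6, e, PD.scal] at h1
  have hYz : Y *ᵥ z ≠ 0 := by
    intro h0
    have := hY.2 z hz
    rw [h0, dotProduct_zero] at this
    exact lt_irrefl _ this
  have h7 := hK.2 _ hYz
  have hc1 : c ≤ 1 := by
    by_contra hcon
    rw [not_le] at hcon
    have h8 : 0 < c ^ 2 - 1 := by nlinarith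
    have h9 := mul_pos h8 h7
    linarith
  intro x
  have h8 := hle x
  have h9 := psd_qf hY.1 x
  nlinarith

/-- the equation `X K X = S` -/
lemma exists_root {K S : Matrix (Fin k) (Fin k) ℝ} (hK : PD K) (hS : PD S) :
    ∃ X, PD X ∧ X * K * X = S := by
  have inj : ∀ {Z : Matrix (Fin k) (Fin k) ℝ}, (∀ x, Z *ᵥ x = 0 → x = 0) →
      ∃ E, E * Z = 1 ∧ Z * E = 1 := by
    intro Z hZ
    have h1 : IsUnit Z := by
      rw [← mulVec_injective_iff_isUnit]
      intro x y hxy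
      have h2 : Z *ᵥ (x - y) = 0 := by
        rw [mulVec_sub]
        exact sub_eq_zero.2 hxy
      exact sub_eq_zero.1 (hZ _ h2)
    obtain ⟨u, hu⟩ := h1
    exact ⟨(u⁻¹ : _), by rw [← hu]; exact u.inv_mul, by rw [← hu]; exact u.mul_inv⟩
  have root : ∀ {T : Matrix (Fin k) (Fin k) ℝ}, T.PosSemidef →
      ∃ R : Matrix (Fin k) (Fin k) ℝ, R.PosSemidef ∧ R * R = T := by
    intro T hT
    open scoped MatrixOrder in
    exact ⟨CFC.sqrt T, (CFC.sqrt_nonneg T).posSemidef, CFC.sqrt_mul_sqrt_self T hT.nonneg⟩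
  obtain ⟨R, hR, hRR⟩ := root hK.1
  have hRs := psd_sym hR
  have hR0 : ∀ x, R *ᵥ x = 0 → x = 0 := by
    intro x hx
    by_contra hne
    have h1 := hK.2 x hne
    rw [← hRR, ← mulVec_mulVec, hx, mulVec_zero, dotProduct_zero] at h1
    exact lt_irrefl _ h1
  obtain ⟨E, hE1, hE2⟩ := inj hR0
  have hEs : Eᵀ = E := by
    have h1 : Eᵀ * R = 1 := by
      have := congrArg transpose hE2
      rwa [transpose_mul, hRs, transpose_one] at this
    calc Eᵀ = Eᵀ * (R * E) := by rw [hE2, Matrix.mul_one]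
      _ = E := by rw [← Matrix.mul_assoc, h1, Matrix.one_mul]
  have hT : (R * S * R).PosSemidef := by
    refine psd_of (by rw [transpose_mul, transpose_mul, hRs, psd_sym hS.1, Matrix.mul_assoc])
      fun x => ?_
    have h1 := qf_conj R S x
    rw [hRs] at h1
    rw [h1]
    exact psd_qf hS.1 _
  obtain ⟨Q, hQ, hQQ⟩ := root hT
  have hQs := psd_sym hQ
  have hX : (E * Q * E).PosSemidef := by
    refine psd_of (by rw [transpose_mul, transpose_mul, hEs, hQs, Matrix.mul_assoc])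
      fun x => ?_
    have h1 := qf_conj E Q x
    rw [hEs] at h1
    rw [h1]
    exact psd_qf hQ _
  have heq : E * Q * E * K * (E * Q * E) = S := by
    rw [← hRR]
    calc E * Q * E * (R * R) * (E * Q * E) = E * Q * (E * R) * (R * E) * Q * E := by
          simp only [Matrix.mul_assoc]
      _ = E * (Q * Q) * E := by
          rw [hE1, hE2, Matrix.mul_one, Matrix.mul_one]; simp only [Matrix.mul_assoc]
      _ = (E * R) * S * (R * E) := by rw [hQQ]; simp only [Matrix.mul_assoc]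
      _ = S := by rw [hE1, hE2, Matrix.one_mul, Matrix.mul_one]
  refine ⟨E * Q * E, ⟨hX, fun x hx => ?_⟩, heq⟩
  refine lt_of_le_of_ne (psd_qf hX x) fun h0 => ?_
  have h1 := psd_zero hX h0.symm
  have h2 := hS.2 x hx
  rw [← heq, ← mulVec_mulVec, h1, mulVec_zero, dotProduct_zero] at h2
  exact lt_irrefl _ h2

lemma one_qf (x : Fin k → ℝ) (r : ℝ) :
    x ⬝ᵥ (r • (1 : Matrix (Fin k) (Fin k) ℝ)) *ᵥ x = r * (x ⬝ᵥ x) := by
  rw [smul_mulVec, one_mulVec, dotProduct_smul, smul_eq_mul]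

lemma ent (X : Matrix (Fin k) (Fin k) ℝ) (i j : Fin k) :
    (Pi.single i 1 : Fin k → ℝ) ⬝ᵥ X *ᵥ (Pi.single j 1) = X i j := by
  rw [mulVec_single_one, single_one_dotProduct]
  rfl

lemma ent_bd {X : Matrix (Fin k) (Fin k) ℝ} {C : ℝ} (hs : Xᵀ = X)
    (h0 : ∀ x : Fin k → ℝ, 0 ≤ x ⬝ᵥ X *ᵥ x) (hC : ∀ x : Fin k → ℝ, x ⬝ᵥ X *ᵥ x ≤ C * (x ⬝ᵥ x))
    (i j : Fin k) : |X i j| ≤ C := by
  have hd : ∀ i, X i i ≤ C := by
    intro i
    have := hC (Pi.single i 1)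
    rw [ent] at this
    simpa using this
  have hsym : X j i = X i j := by
    conv_rhs => rw [← hs]
    rfl
  have h1 := h0 (Pi.single i 1 + Pi.single j 1)
  have h2 := h0 (Pi.single i 1 - Pi.single j 1)
  rw [mulVec_add, add_dotProduct, dotProduct_add, dotProduct_add, ent, ent, ent, ent] at h1
  rw [mulVec_sub, sub_dotProduct, dotProduct_sub, dotProduct_sub, ent, ent, ent, ent] at h2
  rw [abs_le]
  constructor <;> linarith [hd i, hd j]

/-- existence of solutions of `X K X = L X L` -/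
lemma exists_fix (hk : 0 < k) {K : Matrix (Fin k) (Fin k) ℝ} (hK : PD K) {ℓ : Fin k → ℝ}
    (hl : ∀ a, 0 < ℓ a) : ∃ X, PD X ∧ X * K * X = diagonal ℓ * X * diagonal ℓ := by
  obtain ⟨L, hL⟩ : ∃ L : Matrix (Fin k) (Fin k) ℝ, L = diagonal ℓ := ⟨_, rfl⟩
  rw [← hL]
  have hLs : Lᵀ = L := by rw [hL, diagonal_transpose]
  have hL0 : ∀ x, L *ᵥ x = 0 → x = 0 := by
    intro x hx
    funext a
    have h1 := congrFun hx a
    rw [hL, mulVec_diagonal] at h1
    rcases mul_eq_zero.1 h1 with h2 | h2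
    · exact absurd h2 (hl a).ne'
    · exact h2
  have hLq : ∀ (X : Matrix (Fin k) (Fin k) ℝ) (x : Fin k → ℝ),
      x ⬝ᵥ (L * X * L) *ᵥ x = (L *ᵥ x) ⬝ᵥ X *ᵥ (L *ᵥ x) := by
    intro X x
    have := qf_conj L X x
    rwa [hLs] at this
  have hLL : ∀ x, x ⬝ᵥ (L * L) *ᵥ x = (L *ᵥ x) ⬝ᵥ (L *ᵥ x) := by
    intro x
    have := hLq 1 x
    rwa [Matrix.mul_one, one_mulVec] at this
  have hLPD : PD (L * L) := by
    refine ⟨psd_of (by rw [transpose_mul, hLs]) fun x => ?_, fun x hx => ?_⟩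
    · rw [hLL]
      exact Finset.sum_nonneg fun i _ => mul_self_nonneg _
    · rw [hLL]
      exact dot_self_pos fun h => hx (hL0 x h)
  obtain ⟨z₁, c₁, -, hc₁, -, h₁⟩ := extremal hk hLPD.1 hK
  obtain ⟨z₂, c₂, -, hc₂, -, h₂⟩ := extremal hk hK.1 hLPD
  obtain ⟨C, hC⟩ : ∃ C, C = c₁ + 1 := ⟨_, rfl⟩
  obtain ⟨e, he⟩ : ∃ e, e = (c₂ + 1)⁻¹ := ⟨_, rfl⟩
  have hC0 : 0 < C := by rw [hC]; linarith
  have he0 : 0 < e := by rw [he]; positivity
  have hCb : ∀ x, x ⬝ᵥ (L * L) *ᵥ x ≤ C * (x ⬝ᵥ K *ᵥ x) := by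
    intro x
    have := h₁ x
    have := psd_qf hK.1 x
    rw [hC]
    linarith
  have heb : ∀ x, e * (x ⬝ᵥ K *ᵥ x) ≤ x ⬝ᵥ (L * L) *ᵥ x := by
    intro x
    have h3 := h₂ x
    have h4 := psd_qf hLPD.1 x
    rw [he, inv_mul_le_iff₀ (by linarith)]
    linarith
  have heC : e ≤ C := by
    have hne : (Pi.single ⟨0, hk⟩ 1 : Fin k → ℝ) ≠ 0 := by
      intro h
      have := congrFun h ⟨0, hk⟩
      simp at this
    have h3 := hK.2 _ hne
    exact le_of_mul_le_mul_right ((heb _).trans (hCb _)) h3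
  obtain ⟨S, hS⟩ : ∃ S : Set (Matrix (Fin k) (Fin k) ℝ), S = {X | Xᵀ = X ∧
      (∀ x : Fin k → ℝ, e * (x ⬝ᵥ x) ≤ x ⬝ᵥ X *ᵥ x) ∧
      (∀ x : Fin k → ℝ, x ⬝ᵥ X *ᵥ x ≤ C * (x ⬝ᵥ x)) ∧
      ∀ x : Fin k → ℝ, x ⬝ᵥ (L * X * L) *ᵥ x ≤ x ⬝ᵥ (X * K * X) *ᵥ x} := ⟨_, rfl⟩
  have hxx : ∀ x : Fin k → ℝ, 0 ≤ x ⬝ᵥ x := fun x => Finset.sum_nonneg fun i _ => mul_self_nonneg _
  have hcl : IsClosed S := by
    have c1 : ∀ x : Fin k → ℝ, Continuous fun X : Matrix (Fin k) (Fin k) ℝ => x ⬝ᵥ X *ᵥ x :=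
      fun x => Continuous.dotProduct continuous_const
        (Continuous.matrix_mulVec continuous_id continuous_const)
    have e1 : S = {X | Xᵀ = X} ∩ ((⋂ x : Fin k → ℝ, {X | e * (x ⬝ᵥ x) ≤ x ⬝ᵥ X *ᵥ x}) ∩
        ((⋂ x : Fin k → ℝ, {X | x ⬝ᵥ X *ᵥ x ≤ C * (x ⬝ᵥ x)}) ∩
        ⋂ x : Fin k → ℝ, {X | x ⬝ᵥ (L * X * L) *ᵥ x ≤ x ⬝ᵥ (X * K * X) *ᵥ x})) := by
      rw [hS]
      ext X
      simp only [Set.mem_ofPred_eq, Set.mem_inter_iff, Set.mem_iInter]
    rw [e1]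
    refine (isClosed_eq (Continuous.matrix_transpose continuous_id) continuous_id).inter
      (IsClosed.inter ?_ (IsClosed.inter ?_ ?_))
    · exact isClosed_iInter fun x => isClosed_le continuous_const (c1 x)
    · exact isClosed_iInter fun x => isClosed_le (c1 x) continuous_const
    · refine isClosed_iInter fun x => isClosed_le ((c1 x).comp ?_) ((c1 x).comp ?_)
      · exact (Continuous.matrix_mul continuous_const continuous_id).matrix_mul continuous_const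
      · exact (Continuous.matrix_mul continuous_id continuous_const).matrix_mul continuous_id
  have hcomp : IsCompact S := by
    have h5 : IsCompact (Set.pi Set.univ fun _ : Fin k => Set.pi Set.univ fun _ : Fin k =>
        Set.Icc (-C) C) := isCompact_univ_pi fun _ => isCompact_univ_pi fun _ => isCompact_Icc
    refine IsCompact.of_isClosed_subset h5 hcl ?_
    intro X hX i _ j _
    rw [hS] at hX
    obtain ⟨x1, x2, x3, x4⟩ := hX
    exact abs_le.1 (ent_bd x1 (fun x => (mul_nonneg he0.le (hxx x)).trans (x2 x)) x3 i j)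
  have hne : S.Nonempty := by
    refine ⟨C • (1 : Matrix (Fin k) (Fin k) ℝ), ?_⟩
    rw [hS]
    refine ⟨by rw [transpose_smul, transpose_one], fun x => ?_, fun x => ?_, fun x => ?_⟩
    · rw [one_qf]
      exact mul_le_mul_of_nonneg_right heC (hxx x)
    · rw [one_qf]
    · have h6 : L * (C • (1 : Matrix (Fin k) (Fin k) ℝ)) * L = C • (L * L) := by
        rw [Matrix.mul_smul, Matrix.mul_one, Matrix.smul_mul]
      have h7 : C • (1 : Matrix (Fin k) (Fin k) ℝ) * K * C • (1 : Matrix (Fin k) (Fin k) ℝ) =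
          (C * C) • K := by
        rw [Matrix.smul_mul, Matrix.one_mul, Matrix.mul_smul, Matrix.mul_one, smul_smul]
      rw [h6, h7, smul_mulVec, smul_mulVec, dotProduct_smul, dotProduct_smul, smul_eq_mul,
        smul_eq_mul, mul_assoc]
      exact mul_le_mul_of_nonneg_left (hCb x) hC0.le
  obtain ⟨X, hX, hmin⟩ := hcomp.exists_isMinOn hne
    (Continuous.matrix_trace continuous_id).continuousOn
  have hX' := hX
  rw [hS] at hX'
  obtain ⟨x1, x2, x3, x4⟩ := hX'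
  have hXPD : PD X := by
    refine ⟨psd_of x1 fun x => (mul_nonneg he0.le (hxx x)).trans (x2 x), fun x hx => ?_⟩
    exact (mul_pos he0 (dot_self_pos hx)).trans_le (x2 x)
  have hLX : PD (L * X * L) := by
    refine ⟨psd_of (by rw [transpose_mul, transpose_mul, hLs, x1, Matrix.mul_assoc]) fun x => ?_,
      fun x hx => ?_⟩
    · rw [hLq]
      exact psd_qf hXPD.1 _
    · rw [hLq]
      exact hXPD.2 _ fun h => hx (hL0 x h)
  obtain ⟨Z, hZ, hZe⟩ := exists_root hK hLX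
  have hZX : ∀ x, x ⬝ᵥ Z *ᵥ x ≤ x ⬝ᵥ X *ᵥ x :=
    mono hk hZ.1 hXPD hK fun x => by rw [hZe]; exact x4 x
  have heZ : ∀ x, e * (x ⬝ᵥ x) ≤ x ⬝ᵥ Z *ᵥ x := by
    have h8 : (e • (1 : Matrix (Fin k) (Fin k) ℝ)).PosSemidef := by
      refine psd_of (by rw [transpose_smul, transpose_one]) fun x => ?_
      rw [one_qf]
      exact mul_nonneg he0.le (hxx x)
    have h9 := mono hk h8 hZ hK fun x => by
      have h7 : e • (1 : Matrix (Fin k) (Fin k) ℝ) * K * e • (1 : Matrix (Fin k) (Fin k) ℝ) =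
          (e * e) • K := by
        rw [Matrix.smul_mul, Matrix.one_mul, Matrix.mul_smul, Matrix.mul_one, smul_smul]
      rw [h7, hZe, smul_mulVec, dotProduct_smul, smul_eq_mul, mul_assoc, hLq]
      refine (mul_le_mul_of_nonneg_left (heb x) he0.le).trans ?_
      rw [hLL]
      exact x2 _
    intro x
    have := h9 x
    rwa [one_qf] at this
  have hZS : Z ∈ S := by
    rw [hS]
    refine ⟨psd_sym hZ.1, heZ, fun x => (hZX x).trans (x3 x), fun x => ?_⟩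
    rw [hZe, hLq, hLq]
    exact hZX _
  have htr : X.trace ≤ Z.trace := hmin hZS
  have hXZ : (X - Z).PosSemidef := by
    refine psd_of (by rw [transpose_sub, x1, psd_sym hZ.1]) fun x => ?_
    rw [sub_mulVec, dotProduct_sub]
    linarith [hZX x]
  have hXZ0 : X = Z := by
    have h10 : (X - Z).trace = 0 := by
      refine le_antisymm ?_ hXZ.trace_nonneg
      rw [trace_sub]
      linarith
    exact sub_eq_zero.1 (hXZ.trace_eq_zero_iff.1 h10)
  refine ⟨X, hXPD, ?_⟩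
  conv_lhs => rw [hXZ0]
  rw [hZe]

end

end Pool.Agent.K1H4.PC
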