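import Pool.Agent.K1H4.PC.Exist

/-! # Fixed points of the Pearson correlation map: existence of `μ`, the general case -/

set_option autoImplicit false

namespace Pool.Agent.K1H4.PC

open Matrix

/-- existence of `μ` -/
theorem exists_adm {n k : ℕ} {ℓ q : Fin k → ℝ} (hl : ∀ a, 0 < ℓ a) (hq : ∀ a, 0 ≤ q a)
    (hs : ∑ a, q a < n) : ∃ μ, Adm n ℓ q μ := by
  classical
  rcases Nat.eq_zero_or_pos k with hk | hk
  · subst hk
    refine ⟨0, .zero, fun a => a.elim0, fun x ⟨a, _⟩ => a.elim0, ?_⟩
    ext a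
    exact a.elim0
  have hn : (0:ℝ) < n := lt_of_le_of_lt (Finset.sum_nonneg fun a _ => hq a) hs
  obtain ⟨t, ht⟩ : ∃ t : ℝ, t = 1 / (n : ℝ) := ⟨_, rfl⟩
  have ht0 : 0 < t := by rw [ht]; positivity
  have ht1 : t * ∑ a, q a < 1 := by
    rw [ht, one_div, inv_mul_lt_iff₀ hn, mul_one]
    exact hs
  obtain ⟨q', hq'⟩ : ∃ q' : Fin k → ℝ, ∀ a, q' a = if q a = 0 then 1 else q a := ⟨_, fun a => rfl⟩
  obtain ⟨K, hK⟩ : ∃ K : Matrix (Fin k) (Fin k) ℝ, K = diagonal q' - t • vecMulVec q q := ⟨_, rfl⟩
  obtain ⟨L, hL⟩ : ∃ L : Matrix (Fin k) (Fin k) ℝ, L = diagonal ℓ := ⟨_, rfl⟩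
  have hKs : Kᵀ = K := by
    rw [hK, transpose_sub, diagonal_transpose, transpose_smul, transpose_vecMulVec]
  have hKq : ∀ x : Fin k → ℝ, x ⬝ᵥ K *ᵥ x = ∑ a, q' a * x a ^ 2 - t * (∑ a, q a * x a) ^ 2 := by
    intro x
    rw [hK, sub_mulVec, dotProduct_sub, smul_mulVec, vecMulVec_mulVec, dotProduct_smul,
      smul_eq_mul]
    congr 1
    · unfold dotProduct
      refine Finset.sum_congr rfl fun a _ => ?_
      rw [mulVec_diagonal]
      ring
    · congr 1
      have e1 : x ⬝ᵥ MulOpposite.op (q ⬝ᵥ x) • q = (q ⬝ᵥ x) * (q ⬝ᵥ x) := by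
        unfold dotProduct
        rw [Finset.sum_mul]
        refine Finset.sum_congr rfl fun a _ => ?_
        simp only [Pi.smul_apply, MulOpposite.smul_eq_mul_unop, MulOpposite.unop_op]
        ring
      rw [e1, sq]
      rfl
  have hK0 : ∀ x : Fin k → ℝ, x ≠ 0 → 0 < x ⬝ᵥ K *ᵥ x := by
    intro x hx
    rw [hKq]
    have e1 : (∑ a, q a * x a) ^ 2 ≤ (∑ a, q a) * ∑ a, q a * x a ^ 2 := by
      have h1 := Finset.sum_mul_sq_le_sq_mul_sq Finset.univ (fun a => Real.sqrt (q a))
        (fun a => Real.sqrt (q a) * x a)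
      have h2 : ∀ a, Real.sqrt (q a) * (Real.sqrt (q a) * x a) = q a * x a := fun a => by
        rw [← mul_assoc, Real.mul_self_sqrt (hq a)]
      have h3 : ∀ a, Real.sqrt (q a) ^ 2 = q a := fun a => Real.sq_sqrt (hq a)
      have h4 : ∀ a, (Real.sqrt (q a) * x a) ^ 2 = q a * x a ^ 2 := fun a => by
        rw [mul_pow, h3]
      simpa only [h2, h3, h4] using h1
    have e2 : t * (∑ a, q a * x a) ^ 2 ≤ (t * ∑ a, q a) * ∑ a, q a * x a ^ 2 := by
      rw [mul_assoc]
      exact mul_le_mul_of_nonneg_left e1 ht0.le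
    obtain ⟨r, hr⟩ : ∃ r, r = t * ∑ a, q a := ⟨_, rfl⟩
    rw [← hr] at e2 ht1
    have e3 : 0 < ∑ a, (q' a - r * q a) * x a ^ 2 := by
      obtain ⟨b, hb⟩ := Function.ne_iff.1 hx
      have hco : ∀ a, 0 < q' a - r * q a := by
        intro a
        rw [hq']
        split_ifs with h0
        · rw [h0]; simp
        · have h1 : 0 < q a := lt_of_le_of_ne (hq a) (Ne.symm h0)
          nlinarith
      refine Finset.sum_pos' (fun a _ => mul_nonneg (hco a).le (sq_nonneg _))
        ⟨b, Finset.mem_univ b, mul_pos (hco b) ?_⟩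
      have : x b ≠ 0 := hb
      positivity
    have e4 : ∑ a, (q' a - r * q a) * x a ^ 2 =
        ∑ a, q' a * x a ^ 2 - r * ∑ a, q a * x a ^ 2 := by
      rw [Finset.mul_sum, ← Finset.sum_sub_distrib]
      exact Finset.sum_congr rfl fun a _ => by ring
    linarith
  have hKPD : PD K := by
    refine ⟨psd_of hKs fun x => ?_, hK0⟩
    by_cases hx : x = 0
    · rw [hx]; simp
    · exact (hK0 x hx).le
  obtain ⟨X, hX, hXe⟩ := exists_fix hk hKPD hl
  rw [← hL] at hXe
  have hXs := psd_sym hX.1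
  obtain ⟨P, hP⟩ : ∃ P : Matrix (Fin k) (Fin k) ℝ, P = diagonal fun a => if q a = 0 then 0 else 1 :=
    ⟨_, rfl⟩
  have hPs : Pᵀ = P := by rw [hP, diagonal_transpose]
  have hPP : P * P = P := by
    rw [hP, diagonal_mul_diagonal]
    congr 1
    funext a
    split_ifs <;> simp
  have hPq : P *ᵥ q = q := by
    funext a
    rw [hP, mulVec_diagonal]
    split_ifs with h0
    · rw [h0, zero_mul]
    · rw [one_mul]
  have hPL : P * L = L * P := by
    rw [hP, hL, diagonal_mul_diagonal, diagonal_mul_diagonal]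
    congr 1
    funext a
    ring
  have hPK : P * K = diagonal q - t • vecMulVec q q := by
    rw [hK, Matrix.mul_sub, Matrix.mul_smul, mul_vecMulVec, hPq, hP, diagonal_mul_diagonal]
    congr 2
    funext a
    rw [hq']
    split_ifs with h0
    · rw [h0, zero_mul]
    · rw [one_mul]
  have hKP : K * P = P * K := by
    have h1 := congrArg transpose hPK
    rw [transpose_mul, hKs, hPs, transpose_sub, diagonal_transpose, transpose_smul,
      transpose_vecMulVec, ← hPK] at h1
    exact h1
  obtain ⟨O, hO⟩ : ∃ O : Matrix (Fin k) (Fin k) ℝ, O = P + P - 1 := ⟨_, rfl⟩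
  have o1 : Oᵀ = O := by rw [hO, transpose_sub, transpose_add, hPs, transpose_one]
  have o2 : O * O = 1 := by
    rw [hO]
    have : (P + P - 1) * (P + P - 1) = 4 * (P * P) - 4 * P + 1 := by noncomm_ring
    rw [this, hPP]
    simp
  have o3 : O * K = K * O := by
    rw [hO, Matrix.sub_mul, Matrix.add_mul, Matrix.mul_sub, Matrix.mul_add, hKP, Matrix.one_mul,
      Matrix.mul_one]
  have o4 : O * L = L * O := by
    rw [hO, Matrix.sub_mul, Matrix.add_mul, Matrix.mul_sub, Matrix.mul_add, hPL, Matrix.one_mul,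
      Matrix.mul_one]
  have hLs : Lᵀ = L := by rw [hL, diagonal_transpose]
  have hB : (O * X * O).PosSemidef := by
    refine psd_of (by rw [transpose_mul, transpose_mul, o1, hXs, Matrix.mul_assoc]) fun x => ?_
    have h1 := qf_conj O X x
    rw [o1] at h1
    rw [h1]
    exact psd_qf hX.1 _
  have hXO : X = O * X * O := by
    refine eq_of_eqs (P := 1) (D := L) (K := K) hX.1 hB (by rw [transpose_one])
      (Matrix.one_mul _) (Matrix.mul_one _) (Matrix.mul_one _) (fun x _ hx => hX.2 x hx) ?_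
      (by rw [Matrix.mul_one, Matrix.one_mul]) ?_ (by rw [hLs]; exact hXe) ?_
    · intro x _ hx
      have h1 := qf_conj O X x
      rw [o1] at h1
      rw [h1]
      refine hX.2 _ fun h2 => hx ?_
      have h3 := congrArg (fun y => O *ᵥ y) h2
      simpa [mulVec_mulVec, o2] using h3
    · intro x hx
      funext a
      have h1 := congrFun hx a
      rw [hL, mulVec_diagonal] at h1
      rcases mul_eq_zero.1 h1 with h2 | h2
      · exact absurd h2 (hl a).ne'
      · exact h2
    · rw [hLs]
      calc O * X * O * K * (O * X * O) = O * X * (O * K) * O * X * O := by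
            simp only [Matrix.mul_assoc]
        _ = O * X * K * (O * O) * X * O := by rw [o3]; simp only [Matrix.mul_assoc]
        _ = O * (X * K * X) * O := by rw [o2, Matrix.mul_one]; simp only [Matrix.mul_assoc]
        _ = (O * L) * X * (L * O) := by rw [hXe]; simp only [Matrix.mul_assoc]
        _ = (L * O) * X * (O * L) := by rw [o4]
        _ = _ := by simp only [Matrix.mul_assoc]
  have hcomm : X * O = O * X := by
    calc X * O = O * X * O * O := by rw [← hXO]
      _ = O * X * (O * O) := by simp only [Matrix.mul_assoc]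
      _ = O * X := by rw [o2, Matrix.mul_one]
  have hXP : X * P = P * X := by
    rw [hO, Matrix.mul_sub, Matrix.mul_add, Matrix.sub_mul, Matrix.add_mul, Matrix.mul_one,
      Matrix.one_mul] at hcomm
    have h5 : X * P + X * P = P * X + P * X := by
      have := congrArg (fun Z => Z + X) hcomm
      simpa using this
    ext i j
    have h6 := congrFun (congrFun h5 i) j
    rw [Matrix.add_apply, Matrix.add_apply] at h6
    linarith
  have hPX : P * X = Pᵀ * X * P := by
    rw [hPs, Matrix.mul_assoc, hXP, ← Matrix.mul_assoc, hPP]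
  refine ⟨P * X, ?_, ?_, ?_, ?_⟩
  · rw [hPX]
    refine psd_of (by rw [transpose_mul, transpose_mul, transpose_transpose, hXs,
      Matrix.mul_assoc]) fun x => ?_
    rw [qf_conj]
    exact psd_qf hX.1 _
  · intro a b ha
    rw [hP, diagonal_mul, if_pos ha, zero_mul]
  · intro x ⟨a, ha, hxa⟩
    rw [hPX, qf_conj]
    refine hX.2 _ fun h0 => hxa ?_
    have h1 := congrFun h0 a
    rw [hP, mulVec_diagonal, if_neg ha, one_mul] at h1
    exact h1
  · rw [← ht, ← hPK, ← hL]
    calc P * X * (P * K) * (P * X) = P * (X * P) * K * (P * X) := by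
          simp only [Matrix.mul_assoc]
      _ = P * P * X * (K * P) * X := by rw [hXP]; simp only [Matrix.mul_assoc]
      _ = P * P * (X * P) * K * X := by rw [hKP]; simp only [Matrix.mul_assoc]
      _ = P * P * P * (X * K * X) := by rw [hXP]; simp only [Matrix.mul_assoc]
      _ = P * L * X * L := by rw [hPP, hPP, hXe]; simp only [Matrix.mul_assoc]
      _ = _ := by rw [hPL]; simp only [Matrix.mul_assoc]

end Pool.Agent.K1H4.PC
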