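import Pool.Agent.K1H4.PC.Uni

/-! # Fixed points of the Pearson correlation map: the final statements -/

set_option autoImplicit false

namespace Pool.Agent.K1H4.PC

open Matrix

theorem final_mu (n k : ℕ) (ℓ q : Fin k → ℝ) (hl : ∀ a, 0 < ℓ a) (hq : ∀ a, 0 ≤ q a)
    (hs : ∑ a, q a < n) : ∃! μ, Adm n ℓ q μ := by
  obtain ⟨μ, hμ⟩ := exists_adm hl hq hs
  exact ⟨μ, hμ, fun μ' h' => uniq hl h' hμ⟩

theorem final_iff {n : ℕ} (hn : 0 < n) (A : Matrix (Fin n) (Fin n) ℝ) :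
    IsFix A ↔ (∃ (k : ℕ) (c : Fin n → Fin k) (ℓ : Fin k → ℝ) (P : Matrix (Fin n) (Fin n) ℝ)
      (h : Fin n → ℝ) (μ : Matrix (Fin k) (Fin k) ℝ), Rep A c ℓ P h μ) ∧ ∀ i, A i i = 1 := by
  constructor
  · intro hA
    obtain ⟨k, c, ℓ, P, h, μ, h1, h2, h3⟩ := fwd hn hA
    exact ⟨⟨k, c, ℓ, P, h, μ, h1, h2, h3⟩, hA.1.2⟩
  · rintro ⟨⟨k, c, ℓ, P, h, μ, h1, h2, h3⟩, h4⟩
    exact conv hn h1 h2 h3 h4

theorem final_var {n k : ℕ} (hn : 0 < n) {A : Matrix (Fin n) (Fin n) ℝ} {c : Fin n → Fin k}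
    {ℓ : Fin k → ℝ} {P : Matrix (Fin n) (Fin n) ℝ} {h : Fin n → ℝ}
    {μ : Matrix (Fin k) (Fin k) ℝ} (hA : IsFix A) (hr : Rep A c ℓ P h μ) (i : Fin n) :
    ℓ (c i) ^ 2 = ∑ j, (A i j - mean (A i)) ^ 2 := by
  have hn0 : (n : ℝ) ≠ 0 := by exact_mod_cast hn.ne'
  rw [cov_self, cov_eq hn0 (psd_sym hA.1.1), conv_eq hr.data hr.adm rfl (rep_eq hr.eq),
    mul_diagonal, diagonal_mul, hA.1.2]
  ring

theorem final_unique {n k : ℕ} {A : Matrix (Fin n) (Fin n) ℝ} {c : Fin n → Fin k}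
    {ℓ : Fin k → ℝ} {P P' : Matrix (Fin n) (Fin n) ℝ} {h h' : Fin n → ℝ}
    {μ μ' : Matrix (Fin k) (Fin k) ℝ} (hA : IsFix A) (hr : Rep A c ℓ P h μ)
    (hr' : Rep A c ℓ P' h' μ') : P' = P ∧ h' = h ∧ μ' = μ :=
  data_unique hA.1.1 hr'.data hr'.adm hr'.eq hr.data hr.adm hr.eq

theorem final_zero {n : ℕ} (hn : 0 < n) (A : Matrix (Fin n) (Fin n) ℝ) :
    (IsFix A ∧ ∀ i, ∑ j, A i j = 0) ↔
      ∃ (k : ℕ) (c : Fin n → Fin k) (ℓ : Fin k → ℝ) (P : Matrix (Fin n) (Fin n) ℝ),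
        Data c ℓ P 0 ∧ (∀ i j, A i j = ℓ (c i) ^ 2 * P i j) ∧ ∀ i, ℓ (c i) ^ 2 * P i i = 1 := by
  constructor
  · rintro ⟨hA, hs⟩
    obtain ⟨k, c, ℓ, P, h, μ, h1, h2, h3⟩ := fwd hn hA
    have h0 := h_zero h1 h2 h3 hs
    rw [h0] at h1 h3
    have h4 : ∀ i j, A i j = ℓ (c i) ^ 2 * P i j := by
      intro i j
      rw [h3]
      simp
    exact ⟨k, c, ℓ, P, h1, h4, fun i => by rw [← h4, hA.1.2]⟩
  · rintro ⟨k, c, ℓ, P, h1, h2, h3⟩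
    have hz : ∀ a, cs c (0 : Fin n → ℝ) a = 0 := fun a => Finset.sum_eq_zero fun i _ => rfl
    have ha : Adm n ℓ (cs c (0 : Fin n → ℝ)) 0 := by
      refine ⟨.zero, fun a b _ => rfl, fun x ⟨a, ha, _⟩ => absurd (hz a) ha, ?_⟩
      rw [Matrix.zero_mul, Matrix.zero_mul, Matrix.mul_zero, Matrix.zero_mul]
    refine ⟨conv hn h1 ha (fun i j => by rw [h2]; simp) (fun i => by rw [h2, h3]), fun i => ?_⟩
    rw [Finset.sum_congr rfl fun j _ => h2 i j, ← Finset.mul_sum, h1.one, mul_zero]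

end Pool.Agent.K1H4.PC
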