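import Pool.Agent.K1H4.PC.Core
import Pool.Agent.K1H4.PC.Defs

/-! # Fixed points of the Pearson correlation map: the structure of the solutions of
`A K A = D A D` -/

set_option autoImplicit false

namespace Pool.Agent.K1H4.PC

open Matrix

/-- the pseudo-inverse -/
lemma exists_pinv {n : ℕ} {A : Matrix (Fin n) (Fin n) ℝ} (hA : A.PosSemidef) :
    ∃ Y : Matrix (Fin n) (Fin n) ℝ, Yᵀ = Y ∧ A * Y = Y * A ∧ A * Y * A = A := by
  have hH := hA.isHermitian
  obtain ⟨φ, α, hs⟩ : ∃ (φ : Matrix (Fin n) (Fin n) ℝ ≃⋆ₐ[ℝ] Matrix (Fin n) (Fin n) ℝ)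
      (α : Fin n → ℝ), A = φ (diagonal α) :=
    ⟨Unitary.conjStarAlgAut ℝ _ hH.eigenvectorUnitary, hH.eigenvalues, hH.spectral_theorem⟩
  refine ⟨φ (diagonal fun i => (α i)⁻¹), ?_, ?_, ?_⟩
  · rw [← conjTranspose_eq_transpose_of_trivial, ← star_eq_conjTranspose, ← map_star,
      star_eq_conjTranspose, conjTranspose_eq_transpose_of_trivial, diagonal_transpose]
  · rw [hs, ← map_mul, ← map_mul, diagonal_mul_diagonal, diagonal_mul_diagonal]
    congr 2
    funext i
    ring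
  · rw [hs, ← map_mul, ← map_mul, diagonal_mul_diagonal, diagonal_mul_diagonal]
    congr 2
    funext i
    by_cases h : α i = 0
    · rw [h]; simp
    · field_simp

lemma sym_dot {n : ℕ} {Q : Matrix (Fin n) (Fin n) ℝ} (hQ : Qᵀ = Q) (x y : Fin n → ℝ) :
    (Q *ᵥ x) ⬝ᵥ y = x ⬝ᵥ Q *ᵥ y := by
  rw [dotProduct_mulVec, ← vecMul_transpose, hQ]

section

variable {n k : ℕ} {c : Fin n → Fin k} {ℓ : Fin k → ℝ} {h : Fin n → ℝ}

/-- the part of `h` in the class `a` -/
def hv (c : Fin n → Fin k) (h : Fin n → ℝ) (a : Fin k) (i : Fin n) : ℝ := if c i = a then h i else 0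

lemma hv_dot (a b : Fin k) :
    hv c h a ⬝ᵥ hv c h b = if a = b then cs c (fun i => h i ^ 2) a else 0 := by
  unfold dotProduct hv cs
  rw [Finset.sum_filter]
  split_ifs with hab
  · refine Finset.sum_congr rfl fun i _ => ?_
    rw [← hab]
    split_ifs <;> ring
  · refine Finset.sum_eq_zero fun i _ => ?_
    by_cases h1 : c i = a
    · rw [if_neg (fun h2 => hab (h1.symm.trans h2)), mul_zero]
    · rw [if_neg h1, zero_mul]

lemma hv_one (a : Fin k) : hv c h a ⬝ᵥ (fun _ => 1) = cs c h a := by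
  unfold dotProduct hv cs
  rw [Finset.sum_filter]
  exact Finset.sum_congr rfl fun i _ => by rw [mul_one]

lemma one_hv (a : Fin k) : (fun _ => 1) ⬝ᵥ hv c h a = cs c h a := by
  rw [dotProduct_comm, hv_one]

lemma hv_zero (a : Fin k) (hq : cs c (fun i => h i ^ 2) a = 0) : hv c h a = 0 := by
  have h1 := hv_dot (c := c) (h := h) a a
  rw [if_pos rfl, hq] at h1
  exact dotProduct_self_eq_zero.1 h1

lemma sum_hv (i : Fin n) : ∑ a, hv c h a i = h i := by
  unfold hv
  rw [Finset.sum_ite_eq]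
  simp

lemma sum_hv' : ∑ a, hv c h a = h := by
  funext i
  rw [Finset.sum_apply, sum_hv]

/-- the projection on the span of the vectors `hv c h a` -/
noncomputable def Wm (c : Fin n → Fin k) (h : Fin n → ℝ) : Matrix (Fin n) (Fin n) ℝ :=
  ∑ a, (cs c (fun i => h i ^ 2) a)⁻¹ • vecMulVec (hv c h a) (hv c h a)

lemma wsym : (Wm c h)ᵀ = Wm c h := by
  unfold Wm
  rw [transpose_sum]
  refine Finset.sum_congr rfl fun a _ => ?_
  rw [transpose_smul, transpose_vecMulVec]

lemma wmul (x : Fin n → ℝ) :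
    Wm c h *ᵥ x = ∑ a, ((cs c (fun i => h i ^ 2) a)⁻¹ * (hv c h a ⬝ᵥ x)) • hv c h a := by
  unfold Wm
  rw [sum_mulVec]
  refine Finset.sum_congr rfl fun a _ => ?_
  rw [smul_mulVec, vecMulVec_mulVec, mul_smul]
  congr 1
  funext i
  simp [mul_comm]

lemma qinv (a : Fin k) : ((cs c (fun i => h i ^ 2) a)⁻¹ * cs c (fun i => h i ^ 2) a) • hv c h a =
    hv c h a := by
  by_cases hq : cs c (fun i => h i ^ 2) a = 0
  · rw [hv_zero a hq, smul_zero]
  · rw [inv_mul_cancel₀ hq, one_smul]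

lemma whv (b : Fin k) : Wm c h *ᵥ hv c h b = hv c h b := by
  rw [wmul, Finset.sum_eq_single b]
  · rw [hv_dot, if_pos rfl, qinv]
  · intro a _ hab
    rw [hv_dot, if_neg hab, mul_zero, zero_smul]
  · intro hb
    exact absurd (Finset.mem_univ b) hb

lemma widem : Wm c h * Wm c h = Wm c h := by
  conv_lhs =>
    rw [show Wm c h * Wm c h = Wm c h *
      ∑ a, (cs c (fun i => h i ^ 2) a)⁻¹ • vecMulVec (hv c h a) (hv c h a) from rfl]
  rw [Matrix.mul_sum]
  conv_rhs => unfold Wm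
  refine Finset.sum_congr rfl fun a _ => ?_
  rw [Matrix.mul_smul, mul_vecMulVec, whv]

lemma wone (hsq : ∀ a, cs c (fun i => h i ^ 2) a = cs c h a) : Wm c h *ᵥ (fun _ => 1) = h := by
  rw [wmul]
  conv_rhs => rw [← sum_hv' (c := c) (h := h)]
  refine Finset.sum_congr rfl fun a _ => ?_
  rw [hv_one, ← hsq, qinv]

lemma wh : Wm c h *ᵥ h = h := by
  have h1 : Wm c h *ᵥ (∑ a, hv c h a) = ∑ a, hv c h a := by
    rw [mulVec_sum]
    exact Finset.sum_congr rfl fun a _ => whv a
  rwa [sum_hv'] at h1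

end

/-- the setting -/
structure Sol {n k : ℕ} (c : Fin n → Fin k) (ℓ : Fin k → ℝ) (t : ℝ)
    (A D Y : Matrix (Fin n) (Fin n) ℝ) : Prop where
  psd : A.PosSemidef
  pos : ∀ a, 0 < ℓ a
  inj : Function.Injective ℓ
  diag : D = diagonal fun i => ℓ (c i)
  eq : A * (1 - t • vecMulVec (fun _ => 1) (fun _ => 1)) * A = D * A * D
  ysym : Yᵀ = Y
  yc : A * Y = Y * A
  yy : A * Y * A = A

namespace Sol

variable {n k : ℕ} {c : Fin n → Fin k} {ℓ : Fin k → ℝ} {t : ℝ} {A D Y : Matrix (Fin n) (Fin n) ℝ}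

lemma sym (h : Sol c ℓ t A D Y) : Aᵀ = A := psd_sym h.psd

lemma dsym (h : Sol c ℓ t A D Y) : Dᵀ = D := by rw [h.diag, diagonal_transpose]

lemma pisym (h : Sol c ℓ t A D Y) : (A * Y)ᵀ = A * Y := by
  rw [transpose_mul, h.ysym, h.sym, h.yc]

lemma piidem (h : Sol c ℓ t A D Y) : A * Y * (A * Y) = A * Y := by
  rw [← Matrix.mul_assoc, h.yy]

lemma api (h : Sol c ℓ t A D Y) : A * (A * Y) = A := by
  rw [h.yc, ← Matrix.mul_assoc, h.yy]

/-- the inverse of `D` -/
lemma dinv (h : Sol c ℓ t A D Y) : ∃ E : Matrix (Fin n) (Fin n) ℝ, D * E = 1 ∧ E * D = 1 := by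
  refine ⟨diagonal fun i => (ℓ (c i))⁻¹, ?_, ?_⟩
  · rw [h.diag, diagonal_mul_diagonal, ← diagonal_one]
    congr 1
    funext i
    exact mul_inv_cancel₀ (h.pos _).ne'
  · rw [h.diag, diagonal_mul_diagonal, ← diagonal_one]
    congr 1
    funext i
    exact inv_mul_cancel₀ (h.pos _).ne'

lemma dinj (h : Sol c ℓ t A D Y) (x : Fin n → ℝ) (hx : D *ᵥ x = 0) : x = 0 := by
  obtain ⟨E, -, hE⟩ := h.dinv
  have := congrArg (fun y => E *ᵥ y) hx
  simpa [mulVec_mulVec, hE] using this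

/-- `D` commutes with the projection on the range of `A` -/
lemma dpi (h : Sol c ℓ t A D Y) : D * (A * Y) = A * Y * D := by
  obtain ⟨E, hE, -⟩ := h.dinv
  have h1 : D * A = A * ((1 - t • vecMulVec (fun _ => 1) (fun _ => 1)) * A * E) := by
    calc D * A = D * A * (D * E) := by rw [hE, Matrix.mul_one]
      _ = (D * A * D) * E := by simp only [Matrix.mul_assoc]
      _ = _ := by rw [← h.eq]; simp only [Matrix.mul_assoc]
  have h2 : D * (A * Y) = A * Y * (D * (A * Y)) := by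
    obtain ⟨Z, hZ⟩ : ∃ Z, Z = (1 - t • vecMulVec (fun _ => 1) (fun _ => 1)) * A * E := ⟨_, rfl⟩
    rw [← hZ] at h1
    calc D * (A * Y) = D * A * Y := by rw [Matrix.mul_assoc]
      _ = A * Z * Y := by rw [h1]
      _ = A * Y * A * Z * Y := by rw [h.yy]
      _ = A * Y * (A * Z * Y) := by simp only [Matrix.mul_assoc]
      _ = A * Y * (D * A * Y) := by rw [h1]
      _ = _ := by rw [Matrix.mul_assoc D]
  have h0 := h.pisym
  obtain ⟨Q, hQ⟩ : ∃ Q, Q = A * Y := ⟨_, rfl⟩
  rw [← hQ] at h2 h0 ⊢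
  have h3 := congrArg transpose h2
  rw [transpose_mul, transpose_mul, transpose_mul, h0, h.dsym] at h3
  rw [h2, ← Matrix.mul_assoc, ← h3]

/-- matrices which commute with `D` are in block form -/
lemma block (h : Sol c ℓ t A D Y) {X : Matrix (Fin n) (Fin n) ℝ} (hX : D * X = X * D)
    {i j : Fin n} (hij : c i ≠ c j) : X i j = 0 := by
  have h1 := congrFun (congrFun hX i) j
  rw [h.diag, diagonal_mul, mul_diagonal] at h1
  have h2 : (ℓ (c i) - ℓ (c j)) * X i j = 0 := by linear_combination h1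
  rcases mul_eq_zero.1 h2 with h3 | h3
  · exact absurd (h.inj (sub_eq_zero.1 h3)) hij
  · exact h3

/-- the projection of the vector `1` -/
lemma hvpi (h : Sol c ℓ t A D Y) {g : Fin n → ℝ} (hg : g = (A * Y) *ᵥ (fun _ => 1)) (a : Fin k) :
    hv c g a = (A * Y) *ᵥ (fun i => if c i = a then 1 else 0) := by
  funext i
  unfold hv
  rw [hg]
  unfold mulVec dotProduct
  split_ifs with hi
  · refine Finset.sum_congr rfl fun j _ => ?_
    show (A * Y) i j * 1 = (A * Y) i j * (if c j = a then 1 else 0)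
    split_ifs with hj
    · rfl
    · rw [h.block h.dpi (fun e => hj (e.symm.trans hi)), zero_mul, zero_mul]
  · refine (Finset.sum_eq_zero fun j _ => ?_).symm
    show (A * Y) i j * (if c j = a then 1 else 0) = 0
    split_ifs with hj
    · rw [h.block h.dpi (fun e => hi (e.trans hj)), zero_mul]
    · rw [mul_zero]

lemma pihv (h : Sol c ℓ t A D Y) {g : Fin n → ℝ} (hg : g = (A * Y) *ᵥ (fun _ => 1)) (a : Fin k) :
    (A * Y) *ᵥ hv c g a = hv c g a := by
  rw [h.hvpi hg, mulVec_mulVec, h.piidem]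

lemma dhv (h : Sol c ℓ t A D Y) (g : Fin n → ℝ) (a : Fin k) : D *ᵥ hv c g a = ℓ a • hv c g a := by
  funext i
  rw [h.diag, mulVec_diagonal, Pi.smul_apply, smul_eq_mul]
  unfold hv
  split_ifs with hi
  · rw [hi]
  · rw [mul_zero, mul_zero]

lemma sq (h : Sol c ℓ t A D Y) {g : Fin n → ℝ} (hg : g = (A * Y) *ᵥ (fun _ => 1)) (a : Fin k) :
    cs c (fun i => g i ^ 2) a = cs c g a := by
  have h1 := hv_dot (c := c) (h := g) a a
  rw [if_pos rfl] at h1
  rw [← h1]
  have h2 : hv c g a ⬝ᵥ hv c g a = ((A * Y) *ᵥ (fun i => if c i = a then 1 else 0)) ⬝ᵥ hv c g a := by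
    rw [← h.hvpi hg]
  rw [h2, sym_dot h.pisym, h.pihv hg]
  unfold dotProduct hv cs
  rw [Finset.sum_filter]
  refine Finset.sum_congr rfl fun i _ => ?_
  show (if c i = a then (1:ℝ) else 0) * (if c i = a then g i else 0) = if c i = a then g i else 0
  split_ifs <;> simp

lemma pw (h : Sol c ℓ t A D Y) {g : Fin n → ℝ} (hg : g = (A * Y) *ᵥ (fun _ => 1)) :
    A * Y * Wm c g = Wm c g := by
  unfold Wm
  rw [Matrix.mul_sum]
  refine Finset.sum_congr rfl fun a _ => ?_
  rw [Matrix.mul_smul, mul_vecMulVec, h.pihv hg]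

lemma wp (h : Sol c ℓ t A D Y) {g : Fin n → ℝ} (hg : g = (A * Y) *ᵥ (fun _ => 1)) :
    Wm c g * (A * Y) = Wm c g := by
  have h1 := congrArg transpose (h.pw hg)
  rwa [transpose_mul, h.pisym, wsym] at h1

lemma dw (h : Sol c ℓ t A D Y) (g : Fin n → ℝ) : D * Wm c g = Wm c g * D := by
  have h1 : (D * Wm c g)ᵀ = D * Wm c g := by
    unfold Wm
    rw [Matrix.mul_sum, transpose_sum]
    refine Finset.sum_congr rfl fun a _ => ?_
    rw [Matrix.mul_smul, mul_vecMulVec, h.dhv, transpose_smul, transpose_vecMulVec,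
      smul_vecMulVec, vecMulVec_smul]
  rw [← h1, transpose_mul, wsym, h.dsym]

lemma apos (h : Sol c ℓ t A D Y) {x : Fin n → ℝ} (hx : (A * Y) *ᵥ x = x) (hx0 : x ≠ 0) :
    0 < x ⬝ᵥ A *ᵥ x := by
  refine lt_of_le_of_ne (psd_qf h.psd x) fun h1 => hx0 ?_
  have h2 := psd_zero h.psd h1.symm
  rw [← hx, h.yc, ← mulVec_mulVec, h2, mulVec_zero]

/-- `A` commutes with `Wm` -/
lemma aw (h : Sol c ℓ t A D Y) {g : Fin n → ℝ} (hg : g = (A * Y) *ᵥ (fun _ => 1)) :
    A * Wm c g = Wm c g * A := by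
  obtain ⟨W, hW⟩ : ∃ W, W = Wm c g := ⟨_, rfl⟩
  have w1 : Wᵀ = W := by rw [hW]; exact wsym
  have w2 : W * W = W := by rw [hW]; exact widem
  have w3 : A * Y * W = W := by rw [hW]; exact h.pw hg
  have w4 : W * (A * Y) = W := by rw [hW]; exact h.wp hg
  have w5 : D * W = W * D := by rw [hW]; exact h.dw g
  have w6 : W *ᵥ (fun _ => 1) = g := by rw [hW]; exact wone (h.sq hg)
  rw [← hW]
  obtain ⟨O, hO⟩ : ∃ O : Matrix (Fin n) (Fin n) ℝ, O = W + W - 1 := ⟨_, rfl⟩
  have o1 : Oᵀ = O := by rw [hO, transpose_sub, transpose_add, w1, transpose_one]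
  have o2 : O * O = 1 := by
    rw [hO]
    have : (W + W - 1) * (W + W - 1) = 4 * (W * W) - 4 * W + 1 := by noncomm_ring
    rw [this, w2]
    simp
  have o3 : O * (A * Y) = A * Y * O := by
    rw [hO, Matrix.sub_mul, Matrix.add_mul, w4, Matrix.mul_sub, Matrix.mul_add, w3,
      Matrix.one_mul, Matrix.mul_one]
  have o4 : D * O = O * D := by
    rw [hO, Matrix.sub_mul, Matrix.add_mul, Matrix.mul_sub, Matrix.mul_add, w5, Matrix.one_mul,
      Matrix.mul_one]
  have hAg : A *ᵥ g = A *ᵥ (fun _ => 1) := by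
    rw [hg, mulVec_mulVec, h.api]
  have o5 : (A * O) *ᵥ (fun _ => 1) = A *ᵥ (fun _ => 1) := by
    rw [← mulVec_mulVec, hO, sub_mulVec, add_mulVec, w6, one_mulVec, mulVec_sub, mulVec_add, hAg]
    simp
  obtain ⟨J, hJ⟩ : ∃ J : Matrix (Fin n) (Fin n) ℝ, J = vecMulVec (fun _ => 1) (fun _ => 1) :=
    ⟨_, rfl⟩
  have hJs : Jᵀ = J := by rw [hJ, transpose_vecMulVec]
  have o6 : A * O * J = A * J := by
    rw [hJ, mul_vecMulVec, mul_vecMulVec, o5]
  have o7 : J * O * A = J * A := by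
    have h1 := congrArg transpose o6
    rw [transpose_mul, transpose_mul, transpose_mul, hJs, o1, h.sym] at h1
    rw [Matrix.mul_assoc]
    exact h1
  have hE := h.eq
  rw [← hJ] at hE
  have key : O * A * O * (1 - t • J) * (O * A * O) = Dᵀ * (O * A * O) * D := by
    have e1 : O * A * O * (1 - t • J) * (O * A * O) =
        O * (A * (O * O) * A - t • (A * O * J * O * A)) * O := by
      simp only [Matrix.mul_sub, Matrix.sub_mul, Matrix.mul_one, Matrix.mul_smul, Matrix.smul_mul,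
        Matrix.mul_assoc]
    have e2 : A * O * J * O * A = A * J * A := by
      rw [o6, Matrix.mul_assoc A J O, Matrix.mul_assoc A, o7, Matrix.mul_assoc]
    have e3 : A * (O * O) * A - t • (A * J * A) = A * (1 - t • J) * A := by
      rw [o2]
      simp only [Matrix.mul_sub, Matrix.sub_mul, Matrix.mul_one, Matrix.mul_smul, Matrix.smul_mul]
    rw [e1, e2, e3, hE, h.dsym]
    calc O * (D * A * D) * O = (O * D) * A * (D * O) := by simp only [Matrix.mul_assoc]
      _ = (D * O) * A * (O * D) := by rw [o4]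
      _ = _ := by simp only [Matrix.mul_assoc]
  have hB : (O * A * O).PosSemidef := by
    refine psd_of (by rw [transpose_mul, transpose_mul, o1, h.sym, Matrix.mul_assoc]) fun x => ?_
    have h1 := qf_conj O A x
    rw [o1] at h1
    rw [h1]
    exact psd_qf h.psd _
  have hfin : A = O * A * O := by
    refine eq_of_eqs (P := A * Y) (D := D) (K := 1 - t • J) h.psd hB h.pisym h.piidem h.api ?_
      (fun x hx hx0 => h.apos hx hx0) ?_ h.dpi h.dinj (by rw [h.dsym]; exact hE) key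
    · calc O * A * O * (A * Y) = O * A * (O * (A * Y)) := by simp only [Matrix.mul_assoc]
        _ = O * (A * (A * Y)) * O := by rw [o3]; simp only [Matrix.mul_assoc]
        _ = _ := by rw [h.api]
    · intro x hx hx0
      have h1 := qf_conj O A x
      rw [o1] at h1
      rw [h1]
      refine h.apos ?_ ?_
      · rw [mulVec_mulVec, ← o3, ← mulVec_mulVec, hx]
      · intro h2
        apply hx0
        have h3 := congrArg (fun y => O *ᵥ y) h2
        simpa [mulVec_mulVec, o2] using h3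
  have hcomm : A * O = O * A := by
    calc A * O = O * A * O * O := by rw [← hfin]
      _ = O * A * (O * O) := by simp only [Matrix.mul_assoc]
      _ = O * A := by rw [o2, Matrix.mul_one]
  rw [hO, Matrix.mul_sub, Matrix.mul_add, Matrix.sub_mul, Matrix.add_mul, Matrix.mul_one,
    Matrix.one_mul] at hcomm
  have h5 : A * W + A * W = W * A + W * A := by
    have := congrArg (fun X => X + A) hcomm
    simpa using this
  ext i j
  have h6 := congrFun (congrFun h5 i) j
  rw [Matrix.add_apply, Matrix.add_apply] at h6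
  linarith

end Sol

end Pool.Agent.K1H4.PC
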