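import Pool.Agent.K1H4.PC.Fwd

/-! # Fixed points of the Pearson correlation map: the decomposition -/

set_option autoImplicit false

namespace Pool.Agent.K1H4.PC

open Matrix

/-- the matrix `μ` -/
noncomputable def mu {n k : ℕ} (c : Fin n → Fin k) (g : Fin n → ℝ) (A : Matrix (Fin n) (Fin n) ℝ) :
    Matrix (Fin k) (Fin k) ℝ :=
  Matrix.of fun a b => (cs c (fun i => g i ^ 2) a)⁻¹ * (cs c (fun i => g i ^ 2) b)⁻¹ *
    (hv c g a ⬝ᵥ A *ᵥ hv c g b)

namespace Sol

variable {n k : ℕ} {c : Fin n → Fin k} {ℓ : Fin k → ℝ} {t : ℝ} {A D Y : Matrix (Fin n) (Fin n) ℝ}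
  {g : Fin n → ℝ}

lemma psym (h : Sol c ℓ t A D Y) : (A * Y - Wm c g)ᵀ = A * Y - Wm c g := by
  rw [transpose_sub, h.pisym, wsym]

lemma pip (h : Sol c ℓ t A D Y) (hg : g = (A * Y) *ᵥ (fun _ => 1)) :
    A * Y * (A * Y - Wm c g) = A * Y - Wm c g := by
  rw [Matrix.mul_sub, h.piidem, h.pw hg]

lemma wpz (h : Sol c ℓ t A D Y) (hg : g = (A * Y) *ᵥ (fun _ => 1)) :
    Wm c g * (A * Y - Wm c g) = 0 := by
  rw [Matrix.mul_sub, h.wp hg, widem, sub_self]

lemma pidem (h : Sol c ℓ t A D Y) (hg : g = (A * Y) *ᵥ (fun _ => 1)) :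
    (A * Y - Wm c g) * (A * Y - Wm c g) = A * Y - Wm c g := by
  conv_lhs => rw [Matrix.sub_mul, h.pip hg, h.wpz hg, sub_zero]

lemma dp (h : Sol c ℓ t A D Y) : D * (A * Y - Wm c g) = (A * Y - Wm c g) * D := by
  rw [Matrix.mul_sub, Matrix.sub_mul, h.dpi, h.dw]

lemma apc (h : Sol c ℓ t A D Y) (hg : g = (A * Y) *ᵥ (fun _ => 1)) :
    A * (A * Y - Wm c g) = (A * Y - Wm c g) * A := by
  rw [Matrix.mul_sub, Matrix.sub_mul, h.api, h.aw hg, h.yy]

lemma pone (h : Sol c ℓ t A D Y) (hg : g = (A * Y) *ᵥ (fun _ => 1)) :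
    (A * Y - Wm c g) *ᵥ (fun _ => 1) = 0 := by
  rw [sub_mulVec, wone (h.sq hg), ← hg, sub_self]

lemma pg (h : Sol c ℓ t A D Y) (hg : g = (A * Y) *ᵥ (fun _ => 1)) :
    (A * Y - Wm c g) *ᵥ g = 0 := by
  have h1 : (A * Y) *ᵥ g = g := by
    conv_lhs => rw [hg]
    rw [mulVec_mulVec, h.piidem, ← hg]
  rw [sub_mulVec, wh, h1, sub_self]

lemma ap (h : Sol c ℓ t A D Y) (hg : g = (A * Y) *ᵥ (fun _ => 1)) :
    A * (A * Y - Wm c g) = D * D * (A * Y - Wm c g) := by
  have hP1 := h.psym (g := g)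
  have hP2 := h.pidem hg
  have hP3 := h.dp (g := g)
  have hP4 := h.apc hg
  have hP5 := h.pone hg
  have hP6 := h.pip hg
  obtain ⟨P, hP⟩ : ∃ P, P = A * Y - Wm c g := ⟨_, rfl⟩
  rw [← hP] at hP1 hP2 hP3 hP4 hP5 hP6 ⊢
  have hpow : P * (D * D * P) = D * D * P := by
    calc P * (D * D * P) = (P * D) * (D * P) := by simp only [Matrix.mul_assoc]
      _ = (D * P) * (D * P) := by rw [← hP3]
      _ = D * (P * D) * P := by simp only [Matrix.mul_assoc]
      _ = D * D * (P * P) := by rw [← hP3]; simp only [Matrix.mul_assoc]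
      _ = _ := by rw [hP2]
  have hposP : ∀ x, P *ᵥ x = x → x ≠ 0 → 0 < x ⬝ᵥ A *ᵥ x := by
    intro x hx hx0
    refine h.apos ?_ hx0
    rw [← hx, mulVec_mulVec, hP6]
  have hA1 : (A * P).PosSemidef := by
    have e : A * P = Pᵀ * A * P := by
      rw [hP1, ← hP4, Matrix.mul_assoc, hP2]
    rw [e]
    refine psd_of (by rw [transpose_mul, transpose_mul, transpose_transpose, h.sym,
      Matrix.mul_assoc]) fun x => ?_
    rw [qf_conj]
    exact psd_qf h.psd _
  have hB0 : D * D * P = (D * P)ᵀ * (D * P) := by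
    rw [transpose_mul, hP1, h.dsym, ← hpow]
    simp only [Matrix.mul_assoc]
  have hBq : ∀ x, x ⬝ᵥ (D * D * P) *ᵥ x = ((D * P) *ᵥ x) ⬝ᵥ ((D * P) *ᵥ x) := by
    intro x
    rw [hB0, ← mulVec_mulVec, dotProduct_mulVec, vecMul_transpose]
  have hB1 : (D * D * P).PosSemidef := by
    refine psd_of ?_ fun x => ?_
    · rw [hB0, transpose_mul, transpose_transpose]
    · rw [hBq]
      exact Finset.sum_nonneg fun i _ => mul_self_nonneg _
  refine eq_of_eqs (P := P) (D := D) (K := 1) hA1 hB1 hP1 hP2 ?_ ?_ ?_ ?_ hP3 h.dinj ?_ ?_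
  · rw [Matrix.mul_assoc, hP2]
  · rw [Matrix.mul_assoc, hP2]
  · intro x hx hx0
    rw [← mulVec_mulVec, hx]
    exact hposP x hx hx0
  · intro x hx hx0
    rw [hBq, ← mulVec_mulVec, hx]
    exact dot_self_pos fun h1 => hx0 (h.dinj x h1)
  · obtain ⟨J, hJ⟩ : ∃ J : Matrix (Fin n) (Fin n) ℝ, J = vecMulVec (fun _ => 1) (fun _ => 1) :=
      ⟨_, rfl⟩
    have hE := h.eq
    rw [← hJ] at hE
    have hJs : Jᵀ = J := by rw [hJ, transpose_vecMulVec]
    have j1 : P * A * J = 0 := by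
      rw [hJ, mul_vecMulVec, ← hP4, ← mulVec_mulVec, hP5, mulVec_zero]
      ext i j
      simp [vecMulVec_apply]
    have j2 : J * (A * P) = 0 := by
      have h1 := congrArg transpose j1
      rwa [transpose_mul, transpose_mul, hJs, hP1, h.sym, transpose_zero] at h1
    have e1 : A * (1 - t • J) * A * P = A * A * P := by
      have : A * (1 - t • J) * A * P = A * A * P - t • (A * (J * (A * P))) := by
        simp only [Matrix.mul_sub, Matrix.sub_mul, Matrix.mul_one, Matrix.mul_smul,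
          Matrix.smul_mul, Matrix.mul_assoc]
      rw [this, j2, Matrix.mul_zero, smul_zero, sub_zero]
    rw [Matrix.mul_one, h.dsym]
    calc A * P * (A * P) = A * (P * A) * P := by simp only [Matrix.mul_assoc]
      _ = A * A * (P * P) := by rw [← hP4]; simp only [Matrix.mul_assoc]
      _ = A * (1 - t • J) * A * P := by rw [hP2, e1]
      _ = D * A * (D * P) := by rw [hE]; simp only [Matrix.mul_assoc]
      _ = _ := by rw [hP3]; simp only [Matrix.mul_assoc]
  · rw [Matrix.mul_one, h.dsym]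
    calc D * D * P * (D * D * P) = D * D * (P * (D * D * P)) := by simp only [Matrix.mul_assoc]
      _ = D * D * D * (D * P) := by rw [hpow]; simp only [Matrix.mul_assoc]
      _ = _ := by rw [hP3]; simp only [Matrix.mul_assoc]

lemma decomp (h : Sol c ℓ t A D Y) (hg : g = (A * Y) *ᵥ (fun _ => 1)) :
    A = D * D * (A * Y - Wm c g) + Wm c g * A * Wm c g := by
  have h1 : Wm c g * A * Wm c g = A * Wm c g := by
    rw [← h.aw hg, Matrix.mul_assoc, widem]
  rw [h1, ← h.ap hg, Matrix.mul_sub, h.api]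
  simp

end Sol

section

variable {n k : ℕ} {c : Fin n → Fin k} {g : Fin n → ℝ} {A : Matrix (Fin n) (Fin n) ℝ}

lemma waw : Wm c g * A * Wm c g = ∑ a, ∑ b, mu c g A a b • vecMulVec (hv c g a) (hv c g b) := by
  have e : Wm c g * A * Wm c g =
      (∑ a, (cs c (fun i => g i ^ 2) a)⁻¹ • vecMulVec (hv c g a) (hv c g a)) * A *
      ∑ b, (cs c (fun i => g i ^ 2) b)⁻¹ • vecMulVec (hv c g b) (hv c g b) := rfl
  rw [e, Matrix.sum_mul, Matrix.sum_mul]
  refine Finset.sum_congr rfl fun a _ => ?_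
  rw [Matrix.mul_sum]
  refine Finset.sum_congr rfl fun b _ => ?_
  rw [Matrix.smul_mul, Matrix.smul_mul, vecMulVec_mul, Matrix.mul_smul,
    vecMulVec_mul_vecMulVec, ← dotProduct_mulVec]
  unfold mu
  ext i j
  simp only [Matrix.smul_apply, vecMulVec_apply, smul_eq_mul, Matrix.of_apply, Pi.smul_apply]
  ring

lemma waw_apply (i j : Fin n) :
    (Wm c g * A * Wm c g) i j = mu c g A (c i) (c j) * g i * g j := by
  rw [waw]
  simp only [Matrix.sum_apply, Matrix.smul_apply, vecMulVec_apply, smul_eq_mul]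
  rw [Finset.sum_eq_single (c i), Finset.sum_eq_single (c j)]
  · unfold hv
    rw [if_pos rfl, if_pos rfl]
    ring
  · intro b _ hb
    unfold hv
    rw [if_neg (Ne.symm hb)]
    simp
  · intro hb
    exact absurd (Finset.mem_univ _) hb
  · intro a _ ha
    refine Finset.sum_eq_zero fun b _ => ?_
    unfold hv
    rw [if_neg (Ne.symm ha)]
    simp
  · intro hb
    exact absurd (Finset.mem_univ _) hb

end

end Pool.Agent.K1H4.PC
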