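import Pool.Agent.K1H4.PC.Fwd2

/-! # Fixed points of the Pearson correlation map: the equation for `μ` -/

set_option autoImplicit false

namespace Pool.Agent.K1H4.PC

open Matrix

lemma quad_entry {k : ℕ} (m : Matrix (Fin k) (Fin k) ℝ) (q : Fin k → ℝ) (t : ℝ) (a b : Fin k) :
    (m * (diagonal q - t • vecMulVec q q) * m) a b =
      ∑ x, m a x * q x * m x b - t * ((∑ x, m a x * q x) * (∑ x, q x * m x b)) := by
  rw [Matrix.mul_sub, Matrix.sub_mul, Matrix.sub_apply]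
  congr 1
  · rw [Matrix.mul_apply]
    refine Finset.sum_congr rfl fun x _ => ?_
    rw [mul_diagonal]
  · rw [Matrix.mul_smul, Matrix.smul_mul, mul_vecMulVec, vecMulVec_mul, Matrix.smul_apply,
      vecMulVec_apply, smul_eq_mul]
    rfl

lemma dia_entry {k : ℕ} (m : Matrix (Fin k) (Fin k) ℝ) (l : Fin k → ℝ) (a b : Fin k) :
    (diagonal l * m * diagonal l) a b = l a * m a b * l b := by
  rw [mul_diagonal, diagonal_mul]

namespace Sol

variable {n k : ℕ} {c : Fin n → Fin k} {ℓ : Fin k → ℝ} {t : ℝ} {A D Y : Matrix (Fin n) (Fin n) ℝ}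
  {g : Fin n → ℝ}

lemma mus (h : Sol c ℓ t A D Y) (a b : Fin k) : mu c g A a b = mu c g A b a := by
  unfold mu
  rw [Matrix.of_apply, Matrix.of_apply]
  have : hv c g a ⬝ᵥ A *ᵥ hv c g b = hv c g b ⬝ᵥ A *ᵥ hv c g a := by
    rw [← sym_dot h.sym, dotProduct_comm]
  rw [this]
  ring

lemma muz (h : Sol c ℓ t A D Y) (hg : g = (A * Y) *ᵥ (fun _ => 1)) (a b : Fin k)
    (ha : cs c g a = 0) : mu c g A a b = 0 := by
  unfold mu
  rw [Matrix.of_apply, h.sq hg, ha]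
  simp

lemma muf (h : Sol c ℓ t A D Y) (hg : g = (A * Y) *ᵥ (fun _ => 1)) (a b : Fin k) :
    hv c g a ⬝ᵥ A *ᵥ hv c g b = cs c g a * cs c g b * mu c g A a b := by
  by_cases ha : cs c g a = 0
  · rw [hv_zero a (by rw [h.sq hg]; exact ha), ha]
    simp
  · by_cases hb : cs c g b = 0
    · rw [hv_zero b (by rw [h.sq hg]; exact hb), hb]
      simp
    · unfold mu
      rw [Matrix.of_apply, h.sq hg, h.sq hg]
      field_simp

lemma ahv (h : Sol c ℓ t A D Y) (hg : g = (A * Y) *ᵥ (fun _ => 1)) (b : Fin k) :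
    A *ᵥ hv c g b = ∑ a, (mu c g A a b * cs c g b) • hv c g a := by
  have h1 : A *ᵥ hv c g b = Wm c g *ᵥ (A *ᵥ hv c g b) := by
    rw [mulVec_mulVec, ← h.aw hg, ← mulVec_mulVec, whv]
  rw [h1, wmul]
  refine Finset.sum_congr rfl fun a _ => ?_
  rw [h.muf hg, h.sq hg]
  by_cases ha : cs c g a = 0
  · rw [hv_zero a (by rw [h.sq hg]; exact ha), smul_zero, smul_zero]
  · congr 1
    field_simp

lemma muq (h : Sol c ℓ t A D Y) (hg : g = (A * Y) *ᵥ (fun _ => 1)) (x : Fin k → ℝ) :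
    x ⬝ᵥ mu c g A *ᵥ x = (∑ a, (x a * (cs c g a)⁻¹) • hv c g a) ⬝ᵥ A *ᵥ
      (∑ a, (x a * (cs c g a)⁻¹) • hv c g a) := by
  rw [mulVec_sum, sum_dotProduct]
  unfold dotProduct mulVec
  refine Finset.sum_congr rfl fun a _ => ?_
  have h1 : ∑ i, ((x a * (cs c g a)⁻¹) • hv c g a) i *
      (∑ b, A *ᵥ ((x b * (cs c g b)⁻¹) • hv c g b)) i =
      ((x a * (cs c g a)⁻¹) • hv c g a) ⬝ᵥ (∑ b, A *ᵥ ((x b * (cs c g b)⁻¹) • hv c g b)) := rfl
  refine Eq.trans ?_ h1.symm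
  rw [dotProduct_sum, dotProduct, Finset.mul_sum]
  refine Finset.sum_congr rfl fun b _ => ?_
  rw [mulVec_smul, smul_dotProduct, dotProduct_smul]
  unfold mu
  rw [Matrix.of_apply, h.sq hg, h.sq hg, smul_eq_mul, smul_eq_mul]
  ring

lemma mpsd (h : Sol c ℓ t A D Y) (hg : g = (A * Y) *ᵥ (fun _ => 1)) : (mu c g A).PosSemidef := by
  refine psd_of ?_ fun x => ?_
  · ext a b
    exact h.mus b a
  · rw [h.muq hg]
    exact psd_qf h.psd _

lemma mpos (h : Sol c ℓ t A D Y) (hg : g = (A * Y) *ᵥ (fun _ => 1)) (x : Fin k → ℝ)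
    (hx : ∃ a, cs c g a ≠ 0 ∧ x a ≠ 0) : 0 < x ⬝ᵥ mu c g A *ᵥ x := by
  rw [h.muq hg]
  refine h.apos ?_ ?_
  · rw [mulVec_sum]
    refine Finset.sum_congr rfl fun a _ => ?_
    rw [mulVec_smul, h.pihv hg]
  · intro h0
    obtain ⟨a, ha, hxa⟩ := hx
    have h1 := congrArg (fun y => hv c g a ⬝ᵥ y) h0
    simp only [dotProduct_zero, dotProduct_sum, dotProduct_smul, hv_dot] at h1
    rw [Finset.sum_eq_single a] at h1
    · rw [if_pos rfl, h.sq hg, smul_eq_mul, mul_assoc, inv_mul_cancel₀ ha, mul_one] at h1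
      exact hxa h1
    · intro b _ hb
      rw [if_neg (Ne.symm hb), smul_zero]
    · intro hb
      exact absurd (Finset.mem_univ _) hb

lemma mueq (h : Sol c ℓ t A D Y) (hg : g = (A * Y) *ᵥ (fun _ => 1)) :
    mu c g A * (diagonal (cs c g) - t • vecMulVec (cs c g) (cs c g)) * mu c g A =
      diagonal ℓ * mu c g A * diagonal ℓ := by
  ext a b
  rw [quad_entry, dia_entry]
  by_cases ha : cs c g a = 0
  · have h1 : ∀ x, mu c g A a x = 0 := fun x => h.muz hg a x ha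
    simp [h1]
  by_cases hb : cs c g b = 0
  · have h1 : ∀ x, mu c g A x b = 0 := fun x => by rw [h.mus]; exact h.muz hg b x hb
    simp [h1]
  have e1 : (A *ᵥ hv c g a) ⬝ᵥ (A *ᵥ hv c g b) =
      cs c g a * cs c g b * ∑ x, mu c g A a x * cs c g x * mu c g A x b := by
    rw [h.ahv hg, h.ahv hg, sum_dotProduct, Finset.mul_sum]
    refine Finset.sum_congr rfl fun x _ => ?_
    rw [dotProduct_sum, Finset.sum_eq_single x]
    · rw [smul_dotProduct, dotProduct_smul, hv_dot, if_pos rfl, h.sq hg, h.mus x a, smul_eq_mul,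
        smul_eq_mul]
      ring
    · intro y _ hy
      rw [smul_dotProduct, dotProduct_smul, hv_dot, if_neg (Ne.symm hy), smul_zero, smul_zero]
    · intro hx
      exact absurd (Finset.mem_univ _) hx
  have e2 : ∀ d, (A *ᵥ hv c g d) ⬝ᵥ (fun _ => 1) =
      cs c g d * ∑ x, mu c g A d x * cs c g x := by
    intro d
    rw [h.ahv hg, sum_dotProduct, Finset.mul_sum]
    refine Finset.sum_congr rfl fun x _ => ?_
    rw [smul_dotProduct, hv_one, h.mus x d, smul_eq_mul]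
    ring
  have e3 : hv c g a ⬝ᵥ (A * (1 - t • vecMulVec (fun _ => 1) (fun _ => 1)) * A) *ᵥ hv c g b =
      (A *ᵥ hv c g a) ⬝ᵥ (A *ᵥ hv c g b) -
        t * (((A *ᵥ hv c g a) ⬝ᵥ (fun _ => 1)) * ((A *ᵥ hv c g b) ⬝ᵥ (fun _ => 1))) := by
    rw [← mulVec_mulVec, ← mulVec_mulVec, ← sym_dot h.sym, sub_mulVec, one_mulVec, smul_mulVec,
      vecMulVec_mulVec, dotProduct_sub, dotProduct_smul, smul_eq_mul, dotProduct_comm (fun _ => 1)]
    congr 2
    unfold dotProduct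
    simp [Finset.sum_mul]
  have e4 : hv c g a ⬝ᵥ (D * A * D) *ᵥ hv c g b = ℓ a * ℓ b * (hv c g a ⬝ᵥ A *ᵥ hv c g b) := by
    rw [← mulVec_mulVec, ← mulVec_mulVec, ← sym_dot h.dsym, h.dhv, h.dhv, mulVec_smul,
      smul_dotProduct, dotProduct_smul, smul_eq_mul, smul_eq_mul]
    ring
  rw [← h.eq, e3, e1, e2, e2, h.muf hg] at e4
  have hab : cs c g a * cs c g b ≠ 0 := mul_ne_zero ha hb
  have e5 : ∑ x, cs c g x * mu c g A x b = ∑ x, mu c g A b x * cs c g x :=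
    Finset.sum_congr rfl fun x _ => by rw [h.mus x b]; ring
  rw [e5]
  apply mul_left_cancel₀ hab
  linear_combination e4

end Sol

end Pool.Agent.K1H4.PC
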