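import Pool.Agent.K1H4.PC.Fwd3

/-! # Fixed points of the Pearson correlation map: the main theorem -/

set_option autoImplicit false

namespace Pool.Agent.K1H4.PC

open Matrix

section

variable {n : ℕ} {A : Matrix (Fin n) (Fin n) ℝ}

lemma cov_eq (hn : (n : ℝ) ≠ 0) (hA : Aᵀ = A) (i j : Fin n) :
    ∑ k, (A i k - mean (A i)) * (A j k - mean (A j)) =
      (A * (1 - (1 / (n : ℝ)) • vecMulVec (fun _ => 1) (fun _ => 1)) * A :
        Matrix (Fin n) (Fin n) ℝ) i j := by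
  have hs : ∀ x y, A x y = A y x := fun x y => by
    conv_lhs => rw [← hA]
    rfl
  have e1 : (A * (1 - (1 / (n : ℝ)) • vecMulVec (fun _ => 1) (fun _ => 1)) * A :
      Matrix (Fin n) (Fin n) ℝ) i j =
      ∑ k, A i k * A k j - (1 / (n : ℝ)) * ((∑ k, A i k) * (∑ k, A k j)) := by
    rw [Matrix.mul_sub, Matrix.sub_mul, Matrix.sub_apply, Matrix.mul_one, Matrix.mul_smul,
      Matrix.smul_mul, mul_vecMulVec, vecMulVec_mul, Matrix.smul_apply, vecMulVec_apply,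
      Matrix.mul_apply, smul_eq_mul]
    unfold mulVec vecMul dotProduct
    simp
  rw [e1]
  have e2 : ∀ x, ∑ j, A x j = n * mean (A x) := by
    intro x
    unfold mean
    field_simp
  have e3 : ∑ k, A k j = n * mean (A j) := by
    rw [← e2]
    exact Finset.sum_congr rfl fun k _ => hs k j
  have e4 : ∀ k, (A i k - mean (A i)) * (A j k - mean (A j)) =
      A i k * A k j - mean (A i) * A j k - mean (A j) * A i k + mean (A i) * mean (A j) := by
    intro k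
    rw [hs k j]
    ring
  rw [Finset.sum_congr rfl fun k _ => e4 k, Finset.sum_add_distrib, Finset.sum_sub_distrib,
    Finset.sum_sub_distrib, ← Finset.mul_sum, ← Finset.mul_sum, e2, e2, e3, Finset.sum_const,
    Finset.card_univ, Fintype.card_fin, nsmul_eq_mul]
  field_simp
  ring

lemma cov_self (i : Fin n) : ∑ k, (A i k - mean (A i)) ^ 2 =
    ∑ k, (A i k - mean (A i)) * (A i k - mean (A i)) :=
  Finset.sum_congr rfl fun k _ => sq _

lemma cov_pos (i : Fin n) (h : ∃ j k, A i j ≠ A i k) : 0 < ∑ k, (A i k - mean (A i)) ^ 2 := by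
  refine lt_of_le_of_ne (Finset.sum_nonneg fun k _ => sq_nonneg _) fun h0 => ?_
  have h1 := (Finset.sum_eq_zero_iff_of_nonneg fun k _ => sq_nonneg (A i k - mean (A i))).1 h0.symm
  have h2 : ∀ k, A i k = mean (A i) := fun k =>
    sub_eq_zero.1 (pow_eq_zero_iff (two_ne_zero) |>.1 (h1 k (Finset.mem_univ k)))
  obtain ⟨j, k, hjk⟩ := h
  exact hjk ((h2 j).trans (h2 k).symm)

/-- the classes -/
lemma exists_classes (lam : Fin n → ℝ) : ∃ (k : ℕ) (c : Fin n → Fin k) (ℓ : Fin k → ℝ),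
    Function.Surjective c ∧ Function.Injective ℓ ∧ ∀ i, ℓ (c i) = lam i := by
  classical
  refine ⟨(Finset.univ.image lam).card, fun i => (Finset.univ.image lam).equivFin
    ⟨lam i, Finset.mem_image_of_mem _ (Finset.mem_univ i)⟩,
    fun a => ((Finset.univ.image lam).equivFin.symm a : ℝ), ?_, ?_, ?_⟩
  · intro a
    have h1 := ((Finset.univ.image lam).equivFin.symm a).2
    obtain ⟨i, -, hi⟩ := Finset.mem_image.1 h1
    refine ⟨i, ?_⟩
    have h2 : (⟨lam i, Finset.mem_image_of_mem _ (Finset.mem_univ i)⟩ :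
        {x // x ∈ Finset.univ.image lam}) = (Finset.univ.image lam).equivFin.symm a :=
      Subtype.ext hi
    show (Finset.univ.image lam).equivFin ⟨lam i, _⟩ = a
    rw [h2, Equiv.apply_symm_apply]
  · intro a b hab
    exact (Finset.univ.image lam).equivFin.symm.injective (Subtype.ext hab)
  · intro i
    simp

end

/-- the fixed points satisfy the equation -/
lemma exists_sol {n : ℕ} (hn : 0 < n) {A : Matrix (Fin n) (Fin n) ℝ} (hA : IsFix A) :
    ∃ (k : ℕ) (c : Fin n → Fin k) (ℓ : Fin k → ℝ) (D Y : Matrix (Fin n) (Fin n) ℝ),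
      Function.Surjective c ∧ Sol c ℓ (1 / (n : ℝ)) A D Y := by
  have hn0 : (n : ℝ) ≠ 0 := by exact_mod_cast hn.ne'
  obtain ⟨⟨hpsd, -⟩, hnc, hfix⟩ := hA
  have hsym := psd_sym hpsd
  obtain ⟨lam, hlam⟩ : ∃ lam : Fin n → ℝ, ∀ i, lam i = Real.sqrt (∑ k, (A i k - mean (A i)) ^ 2) :=
    ⟨_, fun i => rfl⟩
  obtain ⟨k, c, ℓ, hc, hl, hcl⟩ := exists_classes lam
  obtain ⟨Y, y1, y2, y3⟩ := exists_pinv hpsd
  refine ⟨k, c, ℓ, diagonal fun i => ℓ (c i), Y, hc, hpsd, ?_, hl, rfl, ?_, y1, y2, y3⟩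
  · intro a
    obtain ⟨i, rfl⟩ := hc a
    rw [hcl, hlam]
    exact Real.sqrt_pos.2 (cov_pos i (hnc i))
  · ext i j
    rw [← cov_eq hn0 hsym, mul_diagonal, diagonal_mul, hcl, hcl, hlam, hlam]
    have h1 : A i j = corr (A i) (A j) := by
      conv_lhs => rw [← hfix]
      rfl
    have h2 : 0 < Real.sqrt (∑ k, (A i k - mean (A i)) ^ 2) := Real.sqrt_pos.2 (cov_pos i (hnc i))
    have h3 : 0 < Real.sqrt (∑ k, (A j k - mean (A j)) ^ 2) := Real.sqrt_pos.2 (cov_pos j (hnc j))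
    rw [h1]
    unfold corr
    rw [Real.sqrt_mul (cov_pos i (hnc i)).le]
    field_simp

lemma sum_lt {n k : ℕ} {c : Fin n → Fin k} {ℓ : Fin k → ℝ} {A D Y : Matrix (Fin n) (Fin n) ℝ}
    (hn : 0 < n) (h : Sol c ℓ (1 / (n : ℝ)) A D Y) :
    ∑ i, ((A * Y) *ᵥ (fun _ => 1)) i < n := by
  obtain ⟨g, hg⟩ : ∃ g, g = (A * Y) *ᵥ (fun _ => (1:ℝ)) := ⟨_, rfl⟩
  rw [← hg]
  have hn0 : (n : ℝ) ≠ 0 := by exact_mod_cast hn.ne'
  have e1 : ∑ i, g i = g ⬝ᵥ g := by
    have h1 : g ⬝ᵥ g = (fun _ => (1:ℝ)) ⬝ᵥ g := by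
      conv_lhs => rw [hg]
      rw [sym_dot h.pisym, mulVec_mulVec, h.piidem, ← hg]
    rw [h1]
    unfold dotProduct
    simp
  have e2 : ∑ i, (1 - g i) * (1 - g i) = n - ∑ i, g i := by
    have : ∀ i, (1 - g i) * (1 - g i) = 1 - 2 * g i + g i * g i := fun i => by ring
    rw [Finset.sum_congr rfl fun i _ => this i, Finset.sum_add_distrib, Finset.sum_sub_distrib,
      ← Finset.mul_sum]
    have h2 : ∑ i, g i * g i = ∑ i, g i := e1.symm
    rw [h2]
    simp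
    ring
  have e3 : 0 ≤ ∑ i, (1 - g i) * (1 - g i) := Finset.sum_nonneg fun i _ => mul_self_nonneg _
  refine lt_of_le_of_ne (by linarith) fun h0 => ?_
  rw [h0, sub_self] at e2
  have e4 := (Finset.sum_eq_zero_iff_of_nonneg fun i _ => mul_self_nonneg (1 - g i)).1 e2
  have hg1 : g = fun _ => 1 := by
    funext i
    have := mul_self_eq_zero.1 (e4 i (Finset.mem_univ i))
    linarith
  rw [hg1] at hg
  obtain ⟨x, hx⟩ : ∃ x, x = Y *ᵥ (fun _ => (1:ℝ)) := ⟨_, rfl⟩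
  have x1 : A *ᵥ x = fun _ => 1 := by rw [hx, mulVec_mulVec, ← hg]
  have x2 : (A * Y) *ᵥ x = x := by
    conv_lhs => rw [hx]
    rw [h.yc, ← mulVec_mulVec, ← hx, x1, ← hx]
  have x3 : (A * (1 - (1 / (n : ℝ)) • vecMulVec (fun _ => 1) (fun _ => 1)) * A) *ᵥ x = 0 := by
    rw [← mulVec_mulVec, ← mulVec_mulVec, x1, sub_mulVec, one_mulVec, smul_mulVec,
      vecMulVec_mulVec]
    have : (fun _ : Fin n => (1:ℝ)) ⬝ᵥ (fun _ => 1) = n := by
      unfold dotProduct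
      simp
    rw [this]
    have h5 : (fun _ : Fin n => (1:ℝ)) - (1 / (n : ℝ)) • MulOpposite.op (n : ℝ) •
        (fun _ : Fin n => (1:ℝ)) = 0 := by
      funext i
      simp
      field_simp
      simp
    rw [h5, mulVec_zero]
  rw [h.eq, ← mulVec_mulVec, ← mulVec_mulVec] at x3
  have x4 := h.dinj _ x3
  have x5 : (A * Y) *ᵥ (D *ᵥ x) = D *ᵥ x := by
    rw [mulVec_mulVec, ← h.dpi, ← mulVec_mulVec, x2]
  have x6 : D *ᵥ x = 0 := by
    rw [← x5, h.yc, ← mulVec_mulVec, x4, mulVec_zero]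
  have x7 := h.dinj _ x6
  rw [x7, mulVec_zero] at x1
  have := congrFun x1 ⟨0, hn⟩
  simp at this

/-- the structure of the fixed points -/
theorem fwd {n : ℕ} (hn : 0 < n) {A : Matrix (Fin n) (Fin n) ℝ} (hA : IsFix A) :
    ∃ (k : ℕ) (c : Fin n → Fin k) (ℓ : Fin k → ℝ) (P : Matrix (Fin n) (Fin n) ℝ) (h : Fin n → ℝ)
      (μ : Matrix (Fin k) (Fin k) ℝ), Data c ℓ P h ∧ Adm n ℓ (cs c h) μ ∧
      ∀ i j, A i j = ℓ (c i) ^ 2 * P i j + μ (c i) (c j) * h i * h j := by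
  obtain ⟨k, c, ℓ, D, Y, hc, hS⟩ := exists_sol hn hA
  obtain ⟨g, hg⟩ : ∃ g, g = (A * Y) *ᵥ (fun _ => (1:ℝ)) := ⟨_, rfl⟩
  refine ⟨k, c, ℓ, A * Y - Wm c g, g, mu c g A, ?_, ?_, ?_⟩
  · refine ⟨hc, hS.pos, hS.inj, hS.psym, hS.pidem hg, fun i j hij => hS.block hS.dp hij, ?_, ?_,
      hS.sq hg, ?_⟩
    · intro i
      have h1 := congrFun (hS.pone hg) i
      unfold mulVec dotProduct at h1
      simpa using h1
    · intro i
      exact congrFun (hS.pg hg) i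
    · rw [hg]
      exact sum_lt hn hS
  · exact ⟨hS.mpsd hg, fun a b => hS.muz hg a b, hS.mpos hg, hS.mueq hg⟩
  · intro i j
    conv_lhs => rw [hS.decomp hg]
    rw [Matrix.add_apply, waw_apply, hS.diag, diagonal_mul_diagonal, diagonal_mul]
    ring

end Pool.Agent.K1H4.PC
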