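import Pool.Agent.K1H4.PC.Exist2

/-! # Fixed points of the Pearson correlation map: uniqueness of the data, and the fixed points
with row sums zero -/

set_option autoImplicit false

namespace Pool.Agent.K1H4.PC

open Matrix

section

variable {n k : ℕ} {c : Fin n → Fin k} {ℓ : Fin k → ℝ} {P : Matrix (Fin n) (Fin n) ℝ}
  {h : Fin n → ℝ} {μ : Matrix (Fin k) (Fin k) ℝ} {A : Matrix (Fin n) (Fin n) ℝ}

lemma hm_mulVec (x : Fin n → ℝ) (a : Fin k) : ((Hm c h)ᵀ *ᵥ x) a = hv c h a ⬝ᵥ x := rfl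

lemma hm_apply (y : Fin k → ℝ) : Hm c h *ᵥ y = ∑ a, y a • hv c h a := by
  funext i
  rw [Finset.sum_apply]
  unfold mulVec dotProduct
  refine Finset.sum_congr rfl fun a _ => ?_
  simp only [Hm, Matrix.of_apply, Pi.smul_apply, smul_eq_mul]
  ring

/-- the two forms of the matrix -/
lemma rep_eq (hA : ∀ i j, A i j = ℓ (c i) ^ 2 * P i j + μ (c i) (c j) * h i * h j) :
    A = diagonal (fun i => ℓ (c i)) * diagonal (fun i => ℓ (c i)) * P +
      Hm c h * μ * (Hm c h)ᵀ := by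
  ext i j
  rw [hA, Matrix.add_apply, hmh_apply, diagonal_mul_diagonal, diagonal_mul]
  ring

lemma pwz (hd : Data c ℓ P h) : P * Wm c h = 0 := by
  unfold Wm
  rw [Matrix.mul_sum]
  refine Finset.sum_eq_zero fun a _ => ?_
  have h1 : P *ᵥ hv c h a = 0 := by
    funext i
    exact congrFun (congrFun (phm hd) i) a
  rw [Matrix.mul_smul, mul_vecMulVec, h1]
  ext i j
  simp

lemma hw : (Hm c h)ᵀ * Wm c h = (Hm c h)ᵀ := by
  have h1 : Wm c h * Hm c h = Hm c h := by
    ext i a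
    exact congrFun (whv (c := c) (h := h) a) i
  have h2 := congrArg transpose h1
  rwa [transpose_mul, wsym] at h2

/-- the quadratic form -/
lemma rep_qf (hd : Data c ℓ P h)
    (hA : ∀ i j, A i j = ℓ (c i) ^ 2 * P i j + μ (c i) (c j) * h i * h j) (x : Fin n → ℝ) :
    x ⬝ᵥ A *ᵥ x = ((diagonal (fun i => ℓ (c i)) * P) *ᵥ x) ⬝ᵥ
      ((diagonal (fun i => ℓ (c i)) * P) *ᵥ x) +
      ((Hm c h)ᵀ *ᵥ x) ⬝ᵥ μ *ᵥ ((Hm c h)ᵀ *ᵥ x) := by
  obtain ⟨D, hD⟩ : ∃ D : Matrix (Fin n) (Fin n) ℝ, D = diagonal fun i => ℓ (c i) := ⟨_, rfl⟩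
  have p3 : D * P = P * D := by rw [hD]; exact dpc hd
  have hDs : Dᵀ = D := by rw [hD, diagonal_transpose]
  rw [rep_eq hA, ← hD, add_mulVec, dotProduct_add]
  congr 1
  · have e : D * D * P = (D * P)ᵀ * (D * P) := by
      rw [transpose_mul, hd.symm, hDs]
      calc D * D * P = D * D * (P * P) := by rw [hd.idem]
        _ = D * (D * P) * P := by simp only [Matrix.mul_assoc]
        _ = D * (P * D) * P := by rw [p3]
        _ = (D * P) * (D * P) := by simp only [Matrix.mul_assoc]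
        _ = P * D * (D * P) := congrArg (fun X => X * (D * P)) p3
    rw [e, ← mulVec_mulVec, dotProduct_mulVec, vecMul_transpose]
  · rw [← mulVec_mulVec, ← mulVec_mulVec, dotProduct_mulVec, ← mulVec_transpose]

/-- the projection on the range of `A` -/
lemma rep_proj (hd : Data c ℓ P h) (ha : Adm n ℓ (cs c h) μ)
    (hA : ∀ i j, A i j = ℓ (c i) ^ 2 * P i j + μ (c i) (c j) * h i * h j)
    {Y : Matrix (Fin n) (Fin n) ℝ} (hAs : Aᵀ = A) (y1 : Yᵀ = Y) (y2 : A * Y = Y * A)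
    (y3 : A * Y * A = A) : P + Wm c h = A * Y := by
  obtain ⟨Q, hQ⟩ : ∃ Q, Q = P + Wm c h := ⟨_, rfl⟩
  have hQs : Qᵀ = Q := by rw [hQ, transpose_add, hd.symm, wsym]
  have hAQ : A * Q = A := by
    have e1 : A * P = diagonal (fun i => ℓ (c i)) * diagonal (fun i => ℓ (c i)) * P := by
      have e0 : (Hm c h)ᵀ * P = 0 := by
        have h1 := congrArg transpose (phm hd)
        rwa [transpose_mul, hd.symm, transpose_zero] at h1
      conv_lhs => rw [rep_eq hA]
      rw [Matrix.add_mul, Matrix.mul_assoc _ P P, hd.idem, Matrix.mul_assoc (Hm c h * μ), e0,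
        Matrix.mul_zero, add_zero]
    have e2 : A * Wm c h = Hm c h * μ * (Hm c h)ᵀ := by
      conv_lhs => rw [rep_eq hA]
      rw [Matrix.add_mul, Matrix.mul_assoc _ P, pwz hd, Matrix.mul_zero, zero_add,
        Matrix.mul_assoc (Hm c h * μ), hw]
    rw [hQ, Matrix.mul_add, e1, e2, ← rep_eq hA]
  have h1 : A * Y * Q = A * Y := by
    rw [y2, Matrix.mul_assoc, hAQ]
  have hker : ∀ x, A *ᵥ x = 0 → Q *ᵥ x = 0 := by
    intro x hx
    have h2 := rep_qf hd hA x
    rw [hx, dotProduct_zero] at h2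
    have h3 : 0 ≤ ((diagonal (fun i => ℓ (c i)) * P) *ᵥ x) ⬝ᵥ
      ((diagonal (fun i => ℓ (c i)) * P) *ᵥ x) := Finset.sum_nonneg fun i _ => mul_self_nonneg _
    have h4 := psd_qf ha.psd ((Hm c h)ᵀ *ᵥ x)
    have h5 : (diagonal (fun i => ℓ (c i)) * P) *ᵥ x = 0 :=
      dotProduct_self_eq_zero.1 (by linarith)
    have h6 : ((Hm c h)ᵀ *ᵥ x) ⬝ᵥ μ *ᵥ ((Hm c h)ᵀ *ᵥ x) = 0 := by linarith
    have h7 : P *ᵥ x = 0 := by
      funext i
      have h8 := congrFun h5 i
      rw [← mulVec_mulVec, mulVec_diagonal] at h8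
      rcases mul_eq_zero.1 h8 with h9 | h9
      · exact absurd h9 (hd.pos _).ne'
      · exact h9
    have h10 : Wm c h *ᵥ x = 0 := by
      rw [wmul]
      refine Finset.sum_eq_zero fun a _ => ?_
      by_cases hqa : cs c h a = 0
      · rw [hv_zero a (by rw [hd.sq]; exact hqa), smul_zero]
      · have h11 : hv c h a ⬝ᵥ x = 0 := by
          by_contra hne
          have := ha.pos ((Hm c h)ᵀ *ᵥ x) ⟨a, hqa, hne⟩
          linarith
        rw [h11, mul_zero, zero_smul]
    rw [hQ, add_mulVec, h7, h10, add_zero]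
  have h2 : Q * (A * Y) = Q := by
    have h3 : Q * (1 - A * Y) = 0 := by
      have h4 : A * (1 - A * Y) = 0 := by
        rw [Matrix.mul_sub, Matrix.mul_one, y2, ← Matrix.mul_assoc, y3, sub_self]
      ext i j
      have h5 := hker ((1 - A * Y).col j) (by
        funext r
        exact congrFun (congrFun h4 r) j)
      exact congrFun h5 i
    rw [Matrix.mul_sub, Matrix.mul_one, sub_eq_zero] at h3
    exact h3.symm
  have h3 := congrArg transpose h2
  have hYs : (A * Y)ᵀ = A * Y := by rw [transpose_mul, y1, hAs, y2]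
  rw [transpose_mul, hYs, hQs, h1] at h3
  rw [← hQ]
  exact h3.symm

/-- the data are determined by the matrix, the classes and the numbers `ℓ` -/
theorem data_unique {P' : Matrix (Fin n) (Fin n) ℝ}
    {h' : Fin n → ℝ} {μ' : Matrix (Fin k) (Fin k) ℝ} (hpsd : A.PosSemidef)
    (hd : Data c ℓ P h) (ha : Adm n ℓ (cs c h) μ)
    (hA : ∀ i j, A i j = ℓ (c i) ^ 2 * P i j + μ (c i) (c j) * h i * h j)
    (hd' : Data c ℓ P' h') (ha' : Adm n ℓ (cs c h') μ')
    (hA' : ∀ i j, A i j = ℓ (c i) ^ 2 * P' i j + μ' (c i) (c j) * h' i * h' j) :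
    P = P' ∧ h = h' ∧ μ = μ' := by
  obtain ⟨Y, y1, y2, y3⟩ := exists_pinv hpsd
  have e1 := rep_proj hd ha hA (psd_sym hpsd) y1 y2 y3
  have e2 := rep_proj hd' ha' hA' (psd_sym hpsd) y1 y2 y3
  have e3 : h = h' := by
    have f1 : (P + Wm c h) *ᵥ (fun _ => (1:ℝ)) = h := by
      rw [add_mulVec, pj hd, wone hd.sq, zero_add]
    have f2 : (P' + Wm c h') *ᵥ (fun _ => (1:ℝ)) = h' := by
      rw [add_mulVec, pj hd', wone hd'.sq, zero_add]
    rw [← f1, ← f2, e1, e2]
  subst e3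
  refine ⟨?_, rfl, uniq hd.pos ha ha'⟩
  have := e1.trans e2.symm
  exact add_right_cancel this

/-- row sums zero -/
lemma h_zero (hd : Data c ℓ P h) (ha : Adm n ℓ (cs c h) μ)
    (hA : ∀ i j, A i j = ℓ (c i) ^ 2 * P i j + μ (c i) (c j) * h i * h j)
    (hs : ∀ i, ∑ j, A i j = 0) : h = 0 := by
  have h1 : ∀ i, h i * (μ *ᵥ cs c h) (c i) = 0 := by
    intro i
    rw [← hs i, Finset.sum_congr rfl fun j _ => hA i j, Finset.sum_add_distrib,
      ← Finset.mul_sum, hd.one, mul_zero, zero_add]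
    have h2 : (μ *ᵥ cs c h) (c i) = ∑ j, μ (c i) (c j) * h j := by
      unfold mulVec dotProduct cs
      rw [← Finset.sum_fiberwise_of_maps_to (s := Finset.univ) (t := Finset.univ) (g := c)
        (fun j _ => Finset.mem_univ _)]
      refine Finset.sum_congr rfl fun a _ => ?_
      rw [Finset.mul_sum]
      refine Finset.sum_congr rfl fun j hj => ?_
      rw [(Finset.mem_filter.1 hj).2]
    rw [h2, Finset.mul_sum]
    exact Finset.sum_congr rfl fun j _ => by ring
  have h3 : ∀ a, cs c h a * (μ *ᵥ cs c h) a = 0 := by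
    intro a
    by_cases hqa : cs c h a = 0
    · rw [hqa, zero_mul]
    · have : ∃ i ∈ Finset.univ.filter (fun i => c i = a), h i ≠ 0 := by
        by_contra hcon
        push Not at hcon
        exact hqa (Finset.sum_eq_zero hcon)
      obtain ⟨i, hi, hne⟩ := this
      have h4 := h1 i
      rw [(Finset.mem_filter.1 hi).2] at h4
      rw [(mul_eq_zero.1 h4).resolve_left hne, mul_zero]
  have h5 : cs c h ⬝ᵥ μ *ᵥ cs c h = 0 := Finset.sum_eq_zero fun a _ => h3 a
  have h6 : ∀ a, cs c h a = 0 := by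
    intro a
    by_contra hne
    have := ha.pos (cs c h) ⟨a, hne, hne⟩
    linarith
  have h7 : ∀ a, hv c h a = 0 := fun a => hv_zero a (by rw [hd.sq, h6])
  rw [← sum_hv' (c := c) (h := h)]
  exact Finset.sum_eq_zero fun a _ => h7 a

end

end Pool.Agent.K1H4.PC
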